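import Mathlib

/-!
Connected vertex sets: tools.
-/

set_option autoImplicit false

namespace Pool.Agent.Y395.EP

variable {V : Type*} {G : SimpleGraph V}

/-- connectivity of an induced subgraph -/
abbrev Cn (G : SimpleGraph V) (S : Set V) : Prop := (G.induce S).Connected

/-- some edge joins the two sets -/
def Tch (G : SimpleGraph V) (S T : Set V) : Prop := ∃ u ∈ S, ∃ v ∈ T, G.Adj u v

lemma Tch.symm {S T : Set V} (h : Tch G S T) : Tch G T S := by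
  obtain ⟨u, hu, v, hv, huv⟩ := h
  exact ⟨v, hv, u, hu, huv.symm⟩

lemma Tch.mono {S T S' T' : Set V} (h : Tch G S T) (hS : S ⊆ S') (hT : T ⊆ T') : Tch G S' T' := by
  obtain ⟨u, hu, v, hv, huv⟩ := h
  exact ⟨u, hS hu, v, hT hv, huv⟩

lemma Cn.ne {S : Set V} (h : Cn G S) : S.Nonempty := by
  obtain ⟨x⟩ := SimpleGraph.Connected.nonempty h
  exact ⟨x.1, x.2⟩

/-- properties spread over connected sets -/
lemma Cn.spread {S : Set V} (h : Cn G S) {P : V → Prop} {v : V} (hv : v ∈ S) (hP : P v)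
    (hstep : ∀ u ∈ S, P u → ∀ w ∈ S, G.Adj u w → P w) : ∀ w ∈ S, P w := by
  intro w hw
  obtain ⟨p⟩ := h.preconnected ⟨v, hv⟩ ⟨w, hw⟩
  have key : ∀ {a b : S} (p : (G.induce S).Walk a b), P a.1 → P b.1 := by
    intro a b p
    induction p with
    | nil => exact id
    | cons hadj p ih => exact fun ha => ih (hstep _ (Subtype.property _) ha _ (Subtype.property _) hadj)
  exact key p hP

lemma cn_singleton (v : V) : Cn G {v} := by
  have : Nonempty ({v} : Set V) := ⟨⟨v, rfl⟩⟩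
  refine SimpleGraph.Connected.mk ?_
  rintro ⟨a, ha⟩ ⟨b, hb⟩
  simp only [Set.mem_singleton_iff] at ha hb
  subst ha
  subst hb
  exact SimpleGraph.Reachable.refl _

lemma Cn.union_adj {S T : Set V} (hS : Cn G S) (hT : Cn G T) (h : Tch G S T) : Cn G (S ∪ T) := by
  obtain ⟨u, hu, v, hv, huv⟩ := h
  exact SimpleGraph.connected_induce_union hS.preconnected hT.preconnected hu hv huv

lemma Cn.union_inter {S T : Set V} (hS : Cn G S) (hT : Cn G T) {u : V}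
    (hu : u ∈ S) (hv : u ∈ T) : Cn G (S ∪ T) :=
  SimpleGraph.induce_union_connected hS.preconnected hT.preconnected ⟨u, hu, hv⟩

lemma cn_of_root {S : Set V} {r : V} (hr : r ∈ S)
    (h : ∀ v ∈ S, ∃ K ⊆ S, Cn G K ∧ r ∈ K ∧ v ∈ K) : Cn G S := by
  rw [Cn, SimpleGraph.connected_iff_exists_forall_reachable]
  refine ⟨⟨r, hr⟩, ?_⟩
  rintro ⟨v, hv⟩
  obtain ⟨K, hKS, hK, hrK, hvK⟩ := h v hv
  have h1 := hK.preconnected ⟨r, hrK⟩ ⟨v, hvK⟩
  exact h1.map (SimpleGraph.induceHomOfLE G hKS).toHom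

lemma Cn.mono_graph {G' : SimpleGraph V} {S : Set V} (h : Cn G S) (hG : G ≤ G') : Cn G' S :=
  SimpleGraph.Connected.mono (fun _ _ hab => hG hab) h

/-- union of branch sets over a connected set of indices -/
lemma Cn.biUnion {W : Type*} {J : SimpleGraph W} {B : W → Set V} {I : Set W} (hI : Cn J I)
    (hB : ∀ w ∈ I, Cn G (B w))
    (hadj : ∀ w ∈ I, ∀ w' ∈ I, J.Adj w w' → Tch G (B w) (B w')) : Cn G (⋃ w ∈ I, B w) := by
  obtain ⟨r, hr⟩ := hI.ne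
  obtain ⟨v, hv⟩ := (hB r hr).ne
  have key : ∀ w ∈ I, ∃ K ⊆ ⋃ w ∈ I, B w, Cn G K ∧ v ∈ K ∧ B w ⊆ K := by
    refine hI.spread hr ?_ ?_
    · exact ⟨B r, Set.subset_biUnion_of_mem (u := B) hr, hB r hr, hv, Set.Subset.refl _⟩
    · rintro u hu ⟨K, h1, h2, h3, h4⟩ w hw huw
      refine ⟨K ∪ B w, Set.union_subset h1 (Set.subset_biUnion_of_mem (u := B) hw),
        h2.union_adj (hB w hw) ((hadj u hu w hw huw).mono h4 (Set.Subset.refl _)),
        Or.inl h3, Set.subset_union_right⟩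
  refine cn_of_root (r := v) (Set.mem_biUnion hr hv) ?_
  intro x hx
  simp only [Set.mem_iUnion] at hx
  obtain ⟨w, hw, hxw⟩ := hx
  obtain ⟨K, h1, h2, h3, h4⟩ := key w hw
  exact ⟨K, h1, h2, h3, h4 hxw⟩

/-- in a set where adjacent vertices have consecutive numbers, connected sets are convex -/
lemma Cn.convex {S : Set V} (h : Cn G S) {φ : V → ℤ}
    (hφ : ∀ u ∈ S, ∀ v ∈ S, G.Adj u v → φ v = φ u + 1 ∨ φ u = φ v + 1) {x y : V} (hx : x ∈ S)
    (hy : y ∈ S) {t : ℤ} (h1 : φ x ≤ t) (h2 : t ≤ φ y) : ∃ w ∈ S, φ w = t := by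
  by_contra hcon
  push Not at hcon
  have h3 : ∀ w ∈ S, φ w < t := by
    refine h.spread hx ?_ ?_
    · exact lt_of_le_of_ne h1 (hcon x hx)
    · intro u hu hut w hw huw
      have h4 := hcon w hw
      rcases hφ u hu w hw huw with h5 | h5 <;> omega
  have := h3 y hy
  omega

/-- disjoint convex sets are ordered -/
lemma ordered {S T : Set V} (hS : Cn G S) (hT : Cn G T) (hd : Disjoint S T) {φ : V → ℤ}
    {U : Set V} (hSU : S ⊆ U) (hTU : T ⊆ U)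
    (hφ : ∀ u ∈ U, ∀ v ∈ U, G.Adj u v → φ v = φ u + 1 ∨ φ u = φ v + 1)
    (hinj : ∀ u ∈ U, ∀ v ∈ U, φ u = φ v → u = v) :
    (∀ u ∈ S, ∀ v ∈ T, φ u < φ v) ∨ (∀ u ∈ S, ∀ v ∈ T, φ v < φ u) := by
  have cS : ∀ x ∈ S, ∀ x' ∈ S, ∀ y ∈ T, ¬ (φ x ≤ φ y ∧ φ y ≤ φ x') := by
    rintro x hx x' hx' y hy ⟨h1, h2⟩
    obtain ⟨w, hw, hwy⟩ := hS.convex (fun u hu v hv => hφ u (hSU hu) v (hSU hv)) hx hx' h1 h2
    have := hinj w (hSU hw) y (hTU hy) hwy
    exact Set.disjoint_left.1 hd hw (this ▸ hy)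
  have cT : ∀ x ∈ T, ∀ x' ∈ T, ∀ y ∈ S, ¬ (φ x ≤ φ y ∧ φ y ≤ φ x') := by
    rintro x hx x' hx' y hy ⟨h1, h2⟩
    obtain ⟨w, hw, hwy⟩ := hT.convex (fun u hu v hv => hφ u (hTU hu) v (hTU hv)) hx hx' h1 h2
    have := hinj w (hTU hw) y (hSU hy) hwy
    exact Set.disjoint_left.1 hd (this ▸ hy) hw
  obtain ⟨x0, hx0⟩ := hS.ne
  obtain ⟨y0, hy0⟩ := hT.ne
  by_cases h0 : φ x0 < φ y0
  · left
    intro u hu v hv
    by_contra hlt
    have h1 := cS x0 hx0 u hu v hv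
    have h2 := cT v hv y0 hy0 x0 hx0
    omega
  · right
    intro u hu v hv
    by_contra hlt
    have h1 := cS u hu x0 hx0 y0 hy0
    have h2 := cS u hu x0 hx0 v hv
    have h3 := cT y0 hy0 v hv u hu
    have h4 := cT y0 hy0 v hv x0 hx0
    omega

/-- three pairwise adjacent disjoint connected sets do not exist in a path -/
lemma path3 {p q s : Set V} (hp : Cn G p) (hq : Cn G q) (hs : Cn G s) (dpq : Disjoint p q)
    (dps : Disjoint p s) (dqs : Disjoint q s) (tpq : Tch G p q) (tps : Tch G p s)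
    (tqs : Tch G q s) {φ : V → ℤ} {U : Set V} (hpU : p ⊆ U) (hqU : q ⊆ U) (hsU : s ⊆ U)
    (hφ : ∀ u ∈ U, ∀ v ∈ U, G.Adj u v → φ v = φ u + 1 ∨ φ u = φ v + 1)
    (hinj : ∀ u ∈ U, ∀ v ∈ U, φ u = φ v → u = v) : False := by
  obtain ⟨u1, hu1, v1, hv1, a1⟩ := tpq
  obtain ⟨u2, hu2, w2, hw2, a2⟩ := tps
  obtain ⟨v3, hv3, w3, hw3, a3⟩ := tqs
  have e1 := hφ u1 (hpU hu1) v1 (hqU hv1) a1
  have e2 := hφ u2 (hpU hu2) w2 (hsU hw2) a2
  have e3 := hφ v3 (hqU hv3) w3 (hsU hw3) a3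
  rcases ordered hp hq dpq hpU hqU hφ hinj with o1 | o1 <;>
  rcases ordered hp hs dps hpU hsU hφ hinj with o2 | o2 <;>
  rcases ordered hq hs dqs hqU hsU hφ hinj with o3 | o3 <;>
  · have b1 := o1 u1 hu1 v1 hv1
    have b2 := o1 u2 hu2 v1 hv1
    have b3 := o1 u1 hu1 v3 hv3
    have b4 := o1 u2 hu2 v3 hv3
    have c1 := o2 u1 hu1 w2 hw2
    have c2 := o2 u2 hu2 w2 hw2
    have c3 := o2 u1 hu1 w3 hw3
    have c4 := o2 u2 hu2 w3 hw3
    have d1 := o3 v1 hv1 w2 hw2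
    have d2 := o3 v3 hv3 w2 hw2
    have d3 := o3 v1 hv1 w3 hw3
    have d4 := o3 v3 hv3 w3 hw3
    omega

end Pool.Agent.Y395.EP
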