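import Mathlib
import Pool.Agent.Y395.EP.Defs
import Pool.Agent.Y395.EP.Tools

set_option autoImplicit false

namespace Pool.Agent.Y395.EP

/-- the relation behind the graph `J` -/
def jrel (u v : ℕ) : Prop :=
  (u = 0 ∧ 2 ≤ v ∧ v % 3 ≠ 1) ∨ (u = 1 ∧ 2 ≤ v ∧ v % 3 ≠ 0) ∨
    (2 ≤ u ∧ (v = u + 1 ∨ (v = u + 2 ∧ u % 3 ≠ 1)))

instance (u v : ℕ) : Decidable (jrel u v) := by unfold jrel; infer_instance

/-- the graph `J` -/
def J : SimpleGraph (Fin 21) := SimpleGraph.fromRel fun u v => jrel u v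

lemma J_adj {u v : Fin 21} : J.Adj u v ↔ u ≠ v ∧ (jrel u v ∨ jrel v u) := by
  simp [J, SimpleGraph.fromRel_adj]

instance : DecidableRel J.Adj := fun u v => decidable_of_iff _ J_adj.symm

/-- the relation behind the graph `H` -/
def hrel (u v : ℕ) : Prop :=
  (v ≤ 20 ∧ jrel u v) ∨ (u = 0 ∧ 21 ≤ v) ∨ (u = 21 ∧ v = 22)

instance (u v : ℕ) : Decidable (hrel u v) := by unfold hrel; infer_instance

/-- the graph `H`: a triangle glued to `J` at the vertex `0` -/
def H : SimpleGraph (Fin 23) := SimpleGraph.fromRel fun u v => hrel u v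

lemma H_adj {u v : Fin 23} : H.Adj u v ↔ u ≠ v ∧ (hrel u v ∨ hrel v u) := by
  simp [H, SimpleGraph.fromRel_adj]

instance : DecidableRel H.Adj := fun u v => decidable_of_iff _ H_adj.symm

/-- the inclusion of `J` in `H` -/
def inc (v : Fin 21) : Fin 23 := Fin.castLE (by norm_num) v

lemma inc_ne {u v : Fin 21} (h : u ≠ v) : inc u ≠ inc v := by
  intro h'
  apply h
  simp only [inc, Fin.ext_iff, Fin.val_castLE] at h'
  exact Fin.ext h'

lemma H_inc {u v : Fin 21} (h : J.Adj u v) : H.Adj (inc u) (inc v) := by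
  rw [J_adj] at h
  rw [H_adj]
  refine ⟨inc_ne h.1, ?_⟩
  have h1 : ((inc u : Fin 23) : ℕ) = u := rfl
  have h2 : ((inc v : Fin 23) : ℕ) = v := rfl
  rw [h1, h2]
  have hu : (u : ℕ) ≤ 20 := by omega
  have hv : (v : ℕ) ≤ 20 := by omega
  rcases h.2 with h3 | h3
  · exact Or.inl (Or.inl ⟨hv, h3⟩)
  · exact Or.inr (Or.inl ⟨hu, h3⟩)

lemma J_three (w : Fin 21) : ∃ a b c : Fin 21, a ≠ b ∧ a ≠ c ∧ b ≠ c ∧
    J.Adj w a ∧ J.Adj w b ∧ J.Adj w c := by
  revert w; decide +kernel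

lemma J_succ {u v : Fin 21} (h : 2 ≤ (u : ℕ)) (hv : (v : ℕ) = u + 1) : J.Adj u v := by
  rw [J_adj]
  refine ⟨?_, Or.inl (Or.inr (Or.inr ⟨h, Or.inl hv⟩))⟩
  intro h'; rw [h'] at hv; omega

lemma J_succ2 {u v : Fin 21} (h : 2 ≤ (u : ℕ)) (hv : (v : ℕ) = u + 2) (hu : (u : ℕ) % 3 ≠ 1) :
    J.Adj u v := by
  rw [J_adj]
  refine ⟨?_, Or.inl (Or.inr (Or.inr ⟨h, Or.inr ⟨hv, hu⟩⟩))⟩
  intro h'; rw [h'] at hv; omega

lemma J_zero {v : Fin 21} (h : 2 ≤ (v : ℕ)) (hv : (v : ℕ) % 3 ≠ 1) : J.Adj 0 v := by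
  rw [J_adj]
  refine ⟨?_, Or.inl (Or.inl ⟨rfl, h, hv⟩)⟩
  intro h'; rw [← h'] at h; simp at h

lemma J_one {v : Fin 21} (h : 2 ≤ (v : ℕ)) (hv : (v : ℕ) % 3 ≠ 0) : J.Adj 1 v := by
  rw [J_adj]
  refine ⟨?_, Or.inl (Or.inr (Or.inl ⟨rfl, h, hv⟩))⟩
  intro h'; rw [← h'] at h; simp at h

/-- intervals of the chain are connected -/
lemma cn_interval {a b : ℕ} (ha : 2 ≤ a) (hab : a ≤ b) (hb : b ≤ 20) :
    Cn J {v : Fin 21 | a ≤ (v : ℕ) ∧ (v : ℕ) ≤ b} := by
  induction b, hab using Nat.le_induction with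
  | base =>
    have : {v : Fin 21 | a ≤ (v : ℕ) ∧ (v : ℕ) ≤ a} = {(⟨a, by omega⟩ : Fin 21)} := by
      ext v
      simp only [Set.mem_ofPred_eq, Set.mem_singleton_iff, Fin.ext_iff]
      omega
    rw [this]
    exact cn_singleton _
  | succ b hab ih =>
    have h1 := ih (by omega)
    have : {v : Fin 21 | a ≤ (v : ℕ) ∧ (v : ℕ) ≤ b + 1} =
        {v : Fin 21 | a ≤ (v : ℕ) ∧ (v : ℕ) ≤ b} ∪ {(⟨b + 1, by omega⟩ : Fin 21)} := by
      ext v
      simp only [Set.mem_ofPred_eq, Set.mem_singleton_iff, Fin.ext_iff, Set.mem_union]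
      omega
    rw [this]
    refine h1.union_adj (cn_singleton _) ?_
    exact ⟨⟨b, by omega⟩, ⟨hab, le_refl _⟩, ⟨b + 1, by omega⟩, rfl, J_succ (by simp; omega) rfl⟩

/-- three of the six triangles avoid three given vertices -/
lemma three_delta (r1 r2 r3 : ℕ) : ∃ i1 i2 i3 : ℕ, 1 ≤ i1 ∧ i1 < i2 ∧ i2 < i3 ∧ i3 ≤ 6 ∧
    ∀ i, (i = i1 ∨ i = i2 ∨ i = i3) → i ≠ r1 ∧ i ≠ r2 ∧ i ≠ r3 := by
  have key : ∀ a b c : Fin 8, ∃ i1 i2 i3 : Fin 7, 1 ≤ (i1 : ℕ) ∧ (i1 : ℕ) < i2 ∧ (i2 : ℕ) < i3 ∧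
      ((i1 : ℕ) ≠ a ∧ (i1 : ℕ) ≠ b ∧ (i1 : ℕ) ≠ c) ∧ ((i2 : ℕ) ≠ a ∧ (i2 : ℕ) ≠ b ∧ (i2 : ℕ) ≠ c) ∧
      ((i3 : ℕ) ≠ a ∧ (i3 : ℕ) ≠ b ∧ (i3 : ℕ) ≠ c) := by decide +kernel
  obtain ⟨i1, i2, i3, h1, h2, h3, h4, h5, h6⟩ :=
    key ⟨min r1 7, by omega⟩ ⟨min r2 7, by omega⟩ ⟨min r3 7, by omega⟩
  refine ⟨i1, i2, i3, h1, h2, h3, by omega, ?_⟩
  simp only at h4 h5 h6
  rintro i (rfl | rfl | rfl) <;> omega

/-- the case distinction for the part of `J` that is realised inside the wall -/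
theorem claimF {X Y : Fin 21 → Prop}
    (hcl : ∀ u v, Y u → J.Adj u v → X v ∨ Y v) (hXY : ∀ v, X v → ¬ Y v)
    (hX : ∃ r1 r2 r3 : Fin 21, ∀ v, X v → v = r1 ∨ v = r2 ∨ v = r3) (hne : ∃ v, Y v) :
    (∃ i1 i2 i3 : ℕ, 1 ≤ i1 ∧ i1 < i2 ∧ i2 < i3 ∧ i3 ≤ 6 ∧
      ∀ v : Fin 21, ((v : ℕ) / 3 = i1 ∨ (v : ℕ) / 3 = i2 ∨ (v : ℕ) / 3 = i3) → Y v) ∨
    (∃ c : Fin 21, X 0 ∧ X 1 ∧ X c ∧ 5 ≤ (c : ℕ) ∧ (c : ℕ) ≤ 17 ∧ (c : ℕ) % 3 = 2 ∧
      (∀ v, X v → v = 0 ∨ v = 1 ∨ v = c) ∧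
      ((∀ v : Fin 21, 2 ≤ (v : ℕ) → (v : ℕ) < c → Y v) ∨ (∀ v : Fin 21, (c : ℕ) < v → Y v))) := by
  classical
  obtain ⟨r1, r2, r3, hr⟩ := hX
  -- a step: neighbour of `Y` outside `X` is in `Y`
  have step : ∀ u v, Y u → J.Adj u v → ¬ X v → Y v := fun u v hu huv hv =>
    (hcl u v hu huv).resolve_left hv
  obtain ⟨i1, i2, i3, h1, h2, h3, h4, h5⟩ := three_delta (r1 / 3) (r2 / 3) (r3 / 3)
  have hnX : ∀ v : Fin 21, ((v : ℕ) / 3 = i1 ∨ (v : ℕ) / 3 = i2 ∨ (v : ℕ) / 3 = i3) → ¬ X v := by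
    intro v hv hXv
    have h6 := h5 _ hv
    rcases hr v hXv with rfl | rfl | rfl
    · exact h6.1 rfl
    · exact h6.2.1 rfl
    · exact h6.2.2 rfl
  by_cases hA : Y 0
  · left
    refine ⟨i1, i2, i3, h1, h2, h3, h4, ?_⟩
    intro v hv
    have hv3 : 3 ≤ (v : ℕ) := by omega
    by_cases hm : (v : ℕ) % 3 = 1
    · have hw : Y ⟨v - 1, by omega⟩ := by
        refine step 0 _ hA (J_zero (by simp; omega) (by simp; omega)) (hnX _ ?_)
        simp only
        omega
      refine step _ v hw (J_succ (by simp; omega) (by simp; omega)) (hnX _ hv)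
    · exact step 0 _ hA (J_zero (by omega) hm) (hnX _ hv)
  by_cases hB : Y 1
  · left
    refine ⟨i1, i2, i3, h1, h2, h3, h4, ?_⟩
    intro v hv
    have hv3 : 3 ≤ (v : ℕ) := by omega
    by_cases hm : (v : ℕ) % 3 = 0
    · have hw : Y ⟨v + 1, by omega⟩ := by
        refine step 1 _ hB (J_one (by simp; omega) (by simp; omega)) (hnX _ ?_)
        simp only
        omega
      refine step _ v hw (J_succ (u := v) (by omega) rfl).symm (hnX _ hv)
    · exact step 1 _ hB (J_one (by omega) hm) (hnX _ hv)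
  -- now `0, 1 ∉ Y`
  have card4 : ∀ a b c d : Fin 21, (a : ℕ) ≠ b → (a : ℕ) ≠ c → (a : ℕ) ≠ d → (b : ℕ) ≠ c →
      (b : ℕ) ≠ d → (c : ℕ) ≠ d → X a → X b → X c → X d → False := by
    intro a b c d hab hac had hbc hbd hcd ha hb hc hd
    have e1 := hr a ha
    have e2 := hr b hb
    have e3 := hr c hc
    have e4 := hr d hd
    simp only [Fin.ext_iff] at e1 e2 e3 e4
    omega
  have hXA : X 0 := by
    by_contra hXA
    have hN : ∀ v : Fin 21, 2 ≤ (v : ℕ) → (v : ℕ) % 3 ≠ 1 → ¬ Y v := by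
      intro v hv hv3 hYv
      rcases hcl v 0 hYv (J_zero hv hv3).symm with h | h
      · exact hXA h
      · exact hA h
    obtain ⟨v, hv⟩ := hne
    have hv2 : 2 ≤ (v : ℕ) := by
      by_contra hlt
      have : v = 0 ∨ v = 1 := by simp only [Fin.ext_iff]; simp; omega
      rcases this with rfl | rfl
      · exact hA hv
      · exact hB hv
    have hv1 : (v : ℕ) % 3 = 1 := by
      by_contra h
      exact hN v hv2 h hv
    have x1 : X 1 := (hcl v 1 hv (J_one hv2 (by omega)).symm).resolve_right hB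
    have x2 : X ⟨v - 1, by omega⟩ :=
      (hcl v _ hv (J_succ (v := v) (by simp; omega) (by simp; omega)).symm).resolve_right
        (hN _ (by simp; omega) (by simp; omega))
    have x3 : X ⟨v + 1, by omega⟩ :=
      (hcl v _ hv (J_succ (u := v) (by omega) rfl)).resolve_right
        (hN _ (by simp; omega) (by simp; omega))
    have x4 : X ⟨v - 2, by omega⟩ :=
      (hcl v _ hv (J_succ2 (v := v) (by simp; omega) (by simp; omega) (by simp; omega)).symm).resolve_right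
        (hN _ (by simp; omega) (by simp; omega))
    have o1 : ((1 : Fin 21) : ℕ) = 1 := rfl
    refine card4 _ _ _ _ ?_ ?_ ?_ ?_ ?_ ?_ x1 x2 x3 x4 <;> simp only [o1, ne_eq] <;> omega
  have hXB : X 1 := by
    by_contra hXB
    have hN : ∀ v : Fin 21, 2 ≤ (v : ℕ) → (v : ℕ) % 3 ≠ 0 → ¬ Y v := by
      intro v hv hv3 hYv
      rcases hcl v 1 hYv (J_one hv hv3).symm with h | h
      · exact hXB h
      · exact hB h
    obtain ⟨v, hv⟩ := hne
    have hv2 : 2 ≤ (v : ℕ) := by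
      by_contra hlt
      have : v = 0 ∨ v = 1 := by simp only [Fin.ext_iff]; simp; omega
      rcases this with rfl | rfl
      · exact hA hv
      · exact hB hv
    have hv1 : (v : ℕ) % 3 = 0 := by
      by_contra h
      exact hN v hv2 h hv
    have x1 : X 0 := hXA
    have x2 : X ⟨v - 1, by omega⟩ :=
      (hcl v _ hv (J_succ (v := v) (by simp; omega) (by simp; omega)).symm).resolve_right
        (hN _ (by simp; omega) (by simp; omega))
    have x3 : X ⟨v + 1, by omega⟩ :=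
      (hcl v _ hv (J_succ (u := v) (by omega) rfl)).resolve_right
        (hN _ (by simp; omega) (by simp; omega))
    have x4 : X ⟨v + 2, by omega⟩ :=
      (hcl v _ hv (J_succ2 (u := v) (by omega) rfl (by omega))).resolve_right
        (hN _ (by simp) (by simp; omega))
    have o1 : ((0 : Fin 21) : ℕ) = 0 := rfl
    refine card4 _ _ _ _ ?_ ?_ ?_ ?_ ?_ ?_ x1 x2 x3 x4 <;> simp only [o1, ne_eq] <;> omega
  -- `X` contains at most one vertex of the chain
  have huniq : ∀ c d : Fin 21, 2 ≤ (c : ℕ) → 2 ≤ (d : ℕ) → X c → X d → c = d := by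
    intro c d hc hd hXc hXd
    by_contra hcd
    have o0 : ((0 : Fin 21) : ℕ) = 0 := rfl
    have o1 : ((1 : Fin 21) : ℕ) = 1 := rfl
    have hcd' : (c : ℕ) ≠ d := fun h => hcd (Fin.ext h)
    refine card4 0 1 c d ?_ ?_ ?_ ?_ ?_ hcd' hXA hXB hXc hXd <;> simp only [o0, o1, ne_eq] <;>
      omega
  obtain ⟨v0, hv0⟩ := hne
  have hv02 : 2 ≤ (v0 : ℕ) := by
    by_contra hlt
    have : v0 = 0 ∨ v0 = 1 := by simp only [Fin.ext_iff]; simp; omega
    rcases this with rfl | rfl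
    · exact hA hv0
    · exact hB hv0
  -- `Y` spreads over connected subsets of the chain missing `X`
  have spr : ∀ I : Set (Fin 21), Cn J I → (∀ v ∈ I, ¬ X v) → ∀ u ∈ I, Y u → ∀ v ∈ I, Y v := by
    intro I hI hIX u hu hYu
    exact hI.spread hu hYu (fun a ha hYa b hb hab => step a b hYa hab (hIX b hb))
  by_cases hc : ∃ c : Fin 21, 2 ≤ (c : ℕ) ∧ X c
  · obtain ⟨c, hc2, hXc⟩ := hc
    have hnc : ∀ v : Fin 21, 2 ≤ (v : ℕ) → v ≠ c → ¬ X v := fun v hv hvc hXv =>
      hvc (huniq v c hv hc2 hXv hXc)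
    have hv0c : v0 ≠ c := fun h => hXY c hXc (h ▸ hv0)
    -- upper and lower part
    have upper : ∀ u : Fin 21, (c : ℕ) < u → Y u → ∀ v : Fin 21, (c : ℕ) < v → Y v := by
      intro u hu hYu v hv
      have hI := cn_interval (a := c + 1) (b := 20) (by omega) (by omega) (le_refl _)
      refine spr _ hI ?_ u ?_ hYu v ?_
      · intro w hw
        simp only [Set.mem_ofPred_eq] at hw
        refine hnc w (by omega) ?_
        rintro rfl
        omega
      · simp only [Set.mem_ofPred_eq]; omega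
      · simp only [Set.mem_ofPred_eq]; omega
    have lower : ∀ u : Fin 21, 2 ≤ (u : ℕ) → (u : ℕ) < c → Y u →
        ∀ v : Fin 21, 2 ≤ (v : ℕ) → (v : ℕ) < c → Y v := by
      intro u hu huc hYu v hv hvc
      have hI := cn_interval (a := 2) (b := c - 1) (by omega) (by omega) (by omega)
      refine spr _ hI ?_ u ?_ hYu v ?_
      · intro w hw
        simp only [Set.mem_ofPred_eq] at hw
        refine hnc w (by omega) ?_
        rintro rfl
        omega
      · simp only [Set.mem_ofPred_eq]; omega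
      · simp only [Set.mem_ofPred_eq]; omega
    by_cases hmid : 5 ≤ (c : ℕ) ∧ (c : ℕ) ≤ 17 ∧ (c : ℕ) % 3 = 2
    · right
      refine ⟨c, hXA, hXB, hXc, hmid.1, hmid.2.1, hmid.2.2, ?_, ?_⟩
      · intro v hv
        by_cases hv2 : 2 ≤ (v : ℕ)
        · exact Or.inr (Or.inr (huniq v c hv2 hc2 hv hXc))
        · have : v = 0 ∨ v = 1 := by simp only [Fin.ext_iff]; simp; omega
          rcases this with h | h
          · exact Or.inl h
          · exact Or.inr (Or.inl h)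
      · rcases lt_or_gt_of_ne (fun h : (v0 : ℕ) = c => hv0c (Fin.ext h)) with h | h
        · exact Or.inl (lower v0 hv02 h hv0)
        · exact Or.inr (upper v0 h hv0)
    · left
      -- everything else of the chain is in `Y`
      have hall : ∀ v : Fin 21, 2 ≤ (v : ℕ) → v ≠ c → Y v := by
        by_cases hend : (c : ℕ) = 2 ∨ (c : ℕ) = 20
        · intro v hv hvc
          have hvc' : (v : ℕ) ≠ c := fun h => hvc (Fin.ext h)
          have hv0c' : (v0 : ℕ) ≠ c := fun h => hv0c (Fin.ext h)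
          rcases hend with h | h
          · exact upper v0 (by omega) hv0 v (by omega)
          · exact lower v0 hv02 (by omega) hv0 v hv (by omega)
        · have hmod : ((c : ℕ) - 1) % 3 ≠ 1 := by omega
          have hl : Y ⟨c - 1, by omega⟩ ↔ Y ⟨c + 1, by omega⟩ := by
            constructor
            · intro h
              refine step _ _ h (J_succ2 (by simp; omega) (by simp; omega) (by simpa using hmod)) ?_
              refine hnc _ (by simp; omega) (by simp [Fin.ext_iff])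
            · intro h
              refine step _ _ h
                (J_succ2 (u := ⟨c - 1, by omega⟩) (by simp; omega) (by simp; omega)
                  (by simpa using hmod)).symm ?_
              refine hnc _ (by simp; omega) ?_
              simp only [ne_eq, Fin.ext_iff]
              omega
          have hboth : Y ⟨c - 1, by omega⟩ ∧ Y ⟨c + 1, by omega⟩ := by
            rcases lt_or_gt_of_ne (fun h : (v0 : ℕ) = c => hv0c (Fin.ext h)) with h | h
            · have h1 := lower v0 hv02 h hv0 ⟨c - 1, by omega⟩ (by simp; omega) (by simp; omega)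
              exact ⟨h1, hl.1 h1⟩
            · have h1 := upper v0 h hv0 ⟨c + 1, by omega⟩ (by simp)
              exact ⟨hl.2 h1, h1⟩
          intro v hv hvc
          rcases lt_or_gt_of_ne (fun h : (v : ℕ) = c => hvc (Fin.ext h)) with h | h
          · exact lower _ (by simp; omega) (by simp; omega) hboth.1 v hv h
          · exact upper _ (by simp) hboth.2 v h
      refine ⟨i1, i2, i3, h1, h2, h3, h4, ?_⟩
      intro v hv
      refine hall v (by omega) ?_
      rintro rfl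
      exact hnX v hv hXc
  · left
    push Not at hc
    refine ⟨i1, i2, i3, h1, h2, h3, h4, ?_⟩
    intro v hv
    have hI := cn_interval (a := 2) (b := 20) (le_refl _) (by omega) (le_refl _)
    refine spr _ hI (fun w hw => hc w hw.1) v0 ?_ hv0 v ?_
    · simp only [Set.mem_ofPred_eq]; omega
    · simp only [Set.mem_ofPred_eq]; omega

end Pool.Agent.Y395.EP
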