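import Mathlib
import Pool.Agent.Y395.EP.Defs
import Pool.Agent.Y395.EP.Tools
import Pool.Agent.Y395.EP.JGraph

set_option autoImplicit false

namespace Pool.Agent.Y395.EP

/-- the vertices of the host graph -/
inductive HV (r : ℕ) : Type
  | c (v : Fin 21)
  | m (u v : Fin 21) (i : Fin r)
  | row (j : Fin r) (i : Fin (2 * r))
  | z (k : Fin (r + 1))
  deriving DecidableEq

namespace HV

variable {r : ℕ}

/-- the host graph's vertex representing the vertex `v` of `J` -/
def κ (r : ℕ) (v : Fin 21) : HV r := if v = 2 then z 0 else if v = 3 then z (Fin.last r) else c v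

lemma κ_two : κ r 2 = z 0 := by simp [κ]
lemma κ_three : κ r 3 = z (Fin.last r) := by simp [κ]
lemma κ_zero : κ r 0 = c 0 := by simp [κ]
lemma κ_c {v : Fin 21} (h2 : v ≠ 2) (h3 : v ≠ 3) : κ r v = c v := by simp [κ, h2, h3]

lemma κ_inj (hr : 1 ≤ r) {u v : Fin 21} (h : κ r u = κ r v) : u = v := by
  have h0 : (0 : Fin (r + 1)) ≠ Fin.last r := by
    intro h'
    have := congrArg Fin.val h'
    simp at this
    omega
  unfold κ at h
  split_ifs at h <;> simp_all

/-- the relation defining the host graph -/
def rel (r : ℕ) : HV r → HV r → Prop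
  | .m u v _, s => J.Adj u v ∧ s(u, v) ≠ s(2, 3) ∧ (s = κ r u ∨ s = κ r v)
  | .row j i, .row j' i' => j = j' ∧ (i' : ℕ) = i + 1
  | .z k, .row j i => ((k : ℕ) = j ∧ (i : ℕ) % 2 = 1) ∨ ((k : ℕ) = j + 1 ∧ (i : ℕ) % 2 = 0)
  | .z k, .z k' => (k' : ℕ) = k + 1
  | .c v, .row _ i => v = 0 ∧ ((i : ℕ) = 0 ∨ (i : ℕ) + 1 = 2 * r)
  | _, _ => False

end HV

open HV

/-- the host graph -/
def host (r : ℕ) : SimpleGraph (HV r) := SimpleGraph.fromRel (HV.rel r)

variable {r : ℕ}

lemma host_adj {s t : HV r} : (host r).Adj s t ↔ s ≠ t ∧ (HV.rel r s t ∨ HV.rel r t s) := by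
  simp [host, SimpleGraph.fromRel_adj]

/-- vertices of the wall -/
def IsW : HV r → Prop
  | .row _ _ => True
  | .z _ => True
  | _ => False

/-- levels -/
def lev : HV r → ℕ
  | .row j _ => 2 * j + 1
  | .z k => 2 * k
  | _ => 0

/-- vertices of the wall which are no roots -/
def IsN : HV r → Prop
  | .row _ _ => True
  | .z k => 0 < (k : ℕ) ∧ (k : ℕ) < r
  | _ => False

lemma IsN.isW {s : HV r} (h : IsN s) : IsW s := by
  cases s <;> simp_all [IsN, IsW]

lemma IsN.lev_pos {s : HV r} (h : IsN s) : 0 < lev s ∧ lev s < 2 * r := by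
  cases s with
  | c v => simp [IsN] at h
  | m u v i => simp [IsN] at h
  | row j i => simp only [lev]; omega
  | z k => simp only [IsN] at h; simp only [lev]; omega

lemma isN_of_lev {s : HV r} (h : IsW s) (h1 : 0 < lev s) (h2 : lev s < 2 * r) : IsN s := by
  cases s with
  | c v => simp [IsW] at h
  | m u v i => simp [IsW] at h
  | row j i => simp [IsN]
  | z k => simp only [lev] at h1 h2; simp only [IsN]; omega

lemma lev_le {s : HV r} : lev s ≤ 2 * r := by
  cases s with
  | c v => simp [lev]
  | m u v i => simp [lev]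
  | row j i => simp only [lev]; omega
  | z k => simp only [lev]; omega

lemma eq_z_of_lev {s : HV r} (hs : IsW s) {k : ℕ} (h : lev s = 2 * k) :
    ∃ hk : k < r + 1, s = z ⟨k, hk⟩ := by
  cases s with
  | c v => simp [IsW] at hs
  | m u v i => simp [IsW] at hs
  | row j i => simp only [lev] at h; omega
  | z k' =>
    simp only [lev] at h
    have hk : (k' : ℕ) = k := by omega
    exact ⟨by omega, by rw [HV.z.injEq]; exact Fin.ext hk⟩

/-- no edge of the wall jumps over an even level -/
lemma adj_lev {s t : HV r} (h : (host r).Adj s t) (hs : IsW s) (ht : IsW t) {k : ℕ}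
    (hk : lev s < 2 * k) : lev t ≤ 2 * k := by
  rw [host_adj] at h
  cases s with
  | c v => simp [IsW] at hs
  | m u v i => simp [IsW] at hs
  | row j i =>
    cases t with
    | c v => simp [IsW] at ht
    | m u v i => simp [IsW] at ht
    | row j' i' =>
      simp only [HV.rel, lev] at *
      rcases h.2 with h1 | h1
      · rw [h1.1] at hk; omega
      · rw [h1.1]; omega
    | z k' =>
      simp only [lev] at *
      rcases h.2 with h1 | h1
      · exact h1.elim
      · simp only [HV.rel] at h1
        omega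
  | z k' =>
    cases t with
    | c v => simp [IsW] at ht
    | m u v i => simp [IsW] at ht
    | row j' i' =>
      simp only [lev] at *
      rcases h.2 with h1 | h1
      · simp only [HV.rel] at h1
        omega
      · exact h1.elim
    | z k'' =>
      simp only [lev] at *
      rcases h.2 with h1 | h1
      · simp only [HV.rel] at h1
        omega
      · simp only [HV.rel] at h1
        omega

lemma adj_lev' {s t : HV r} (h : (host r).Adj s t) (hs : IsW s) (ht : IsW t) {k : ℕ}
    (hk : 2 * k < lev s) : 2 * k ≤ lev t := by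
  by_contra hlt
  have := adj_lev h.symm ht hs (k := k) (by omega)
  omega

/-- the neighbours outside the wall of wall vertices -/
lemma adj_W_nW {s t : HV r} (h : (host r).Adj s t) (hs : IsW s) (ht : ¬ IsW t) :
    t = c 0 ∨ (∃ u v i, t = m u v i ∧ J.Adj u v ∧ s(u, v) ≠ s(2, 3) ∧ (s = κ r u ∨ s = κ r v) ∧
      (s = z 0 ∨ s = z (Fin.last r))) := by
  rw [host_adj] at h
  cases t with
  | c v =>
    left
    cases s with
    | c v => simp [IsW] at hs
    | m u v i => simp [IsW] at hs
    | row j i =>
      simp only [HV.rel] at h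
      rcases h.2 with h1 | h1
      · exact h1.elim
      · rw [h1.1]
    | z k => simp [HV.rel] at h
  | m u v i =>
    right
    refine ⟨u, v, i, rfl, ?_⟩
    have h1 : J.Adj u v ∧ s(u, v) ≠ s(2, 3) ∧ (s = κ r u ∨ s = κ r v) := by
      cases s with
      | c v => simp [IsW] at hs
      | m u v i => simp [IsW] at hs
      | row j i => exact h.2.resolve_left (by simp [HV.rel])
      | z k => exact h.2.resolve_left (by simp [HV.rel])
    refine ⟨h1.1, h1.2.1, h1.2.2, ?_⟩
    have h3 : ∀ w, s = κ r w → s = z 0 ∨ s = z (Fin.last r) := by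
      intro w hw
      by_cases h2 : w = 2
      · left; rw [hw, h2, κ_two]
      by_cases h3 : w = 3
      · right; rw [hw, h3, κ_three]
      · rw [κ_c h2 h3] at hw
        rw [hw] at hs
        simp [IsW] at hs
    rcases h1.2.2 with h2 | h2
    · exact h3 _ h2
    · exact h3 _ h2
  | row j i => simp [IsW] at ht
  | z k => simp [IsW] at ht

/-- neighbours of middle vertices -/
lemma adj_m {u v : Fin 21} {i : Fin r} {t : HV r} (h : (host r).Adj (m u v i) t) :
    J.Adj u v ∧ s(u, v) ≠ s(2, 3) ∧ (t = κ r u ∨ t = κ r v) := by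
  rw [host_adj] at h
  rcases h.2 with h1 | h1
  · exact h1
  · cases t with
    | c w => simp [HV.rel] at h1
    | m u' v' i' =>
      obtain ⟨h2, h3, h4⟩ := h1
      exfalso
      rcases h4 with h4 | h4 <;>
      · unfold κ at h4
        split_ifs at h4
    | row j i' => simp [HV.rel] at h1
    | z k => simp [HV.rel] at h1

lemma adj_c_c {u v : Fin 21} : ¬ (host r).Adj (c u) (c v) := by
  rw [host_adj]; simp [HV.rel]

lemma κ_ne_m {w u v : Fin 21} {i : Fin r} : κ r w ≠ m u v i := by
  unfold κ; split_ifs <;> simp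

lemma κ_ne_row {w : Fin 21} {j : Fin r} {i : Fin (2 * r)} : κ r w ≠ row j i := by
  unfold κ; split_ifs <;> simp

lemma not_isN_κ {w : Fin 21} : ¬ IsN (κ r w) := by
  unfold κ
  split_ifs <;> simp [IsN]

/-- the neighbours of the non-root wall vertices -/
lemma adj_isN {s t : HV r} (h : (host r).Adj s t) (hs : IsN s) :
    IsN t ∨ t = κ r 0 ∨ t = κ r 2 ∨ t = κ r 3 := by
  rw [κ_zero, κ_two, κ_three]
  by_cases ht : IsW t
  · by_cases h1 : 0 < lev t
    · by_cases h2 : lev t < 2 * r
      · exact Or.inl (isN_of_lev ht h1 h2)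
      · right; right; right
        obtain ⟨hk, h3⟩ := eq_z_of_lev (k := r) ht (by have := lev_le (s := t); omega)
        rw [h3]; rfl
    · right; right; left
      obtain ⟨hk, h3⟩ := eq_z_of_lev (k := 0) ht (by omega)
      rw [h3]; rfl
  · rcases adj_W_nW h hs.isW ht with h1 | ⟨u, v, i, h1, h2, h3, h4, h5⟩
    · exact Or.inr (Or.inl h1)
    · exfalso
      rcases h4 with h4 | h4 <;>
      · rw [h4] at hs
        exact not_isN_κ hs

/-- every vertex is a non-root wall vertex, a vertex `κ v`, or has only neighbours of the form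
`κ p`, `κ q` -/
lemma trichotomy (s : HV r) : IsN s ∨ (∃ v, s = κ r v) ∨
    ∃ p q : Fin 21, ∀ t, (host r).Adj s t → t = κ r p ∨ t = κ r q := by
  cases s with
  | c v =>
    by_cases h2 : v = 2
    · right; right
      refine ⟨0, 0, ?_⟩
      intro t ht
      exfalso
      rw [host_adj] at ht
      subst h2
      cases t with
      | c w => simp [HV.rel] at ht
      | m u v i =>
        rcases ht.2 with h1 | h1
        · simp [HV.rel] at h1
        · rcases h1.2.2 with h4 | h4 <;>
          · unfold κ at h4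
            split_ifs at h4 <;> simp_all
      | row j i => simp [HV.rel] at ht
      | z k => simp [HV.rel] at ht
    · by_cases h3 : v = 3
      · right; right
        refine ⟨0, 0, ?_⟩
        intro t ht
        exfalso
        rw [host_adj] at ht
        subst h3
        cases t with
        | c w => simp [HV.rel] at ht
        | m u v i =>
          rcases ht.2 with h1 | h1
          · simp [HV.rel] at h1
          · rcases h1.2.2 with h4 | h4 <;>
            · unfold κ at h4
              split_ifs at h4 <;> simp_all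
        | row j i => simp [HV.rel] at ht
        | z k => simp [HV.rel] at ht
      · exact Or.inr (Or.inl ⟨v, (κ_c h2 h3).symm⟩)
  | m u v i =>
    right; right
    exact ⟨u, v, fun t ht => (adj_m ht).2.2⟩
  | row j i => left; simp [IsN]
  | z k =>
    by_cases h0 : (k : ℕ) = 0
    · right; left
      refine ⟨2, ?_⟩
      rw [κ_two, HV.z.injEq]
      exact Fin.ext h0
    · by_cases h1 : (k : ℕ) = r
      · right; left
        refine ⟨3, ?_⟩
        rw [κ_three, HV.z.injEq]
        exact Fin.ext h1
      · left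
        simp only [IsN]
        omega

lemma row_adj_row {j j' : Fin r} {i i' : Fin (2 * r)} (h : (host r).Adj (row j i) (row j' i')) :
    j = j' ∧ ((i' : ℕ) = i + 1 ∨ (i : ℕ) = i' + 1) := by
  rw [host_adj] at h
  simp only [HV.rel] at h
  rcases h.2 with h1 | h1
  · exact ⟨h1.1, Or.inl h1.2⟩
  · exact ⟨h1.1.symm, Or.inr h1.2⟩

lemma c_adj_row {v : Fin 21} {j : Fin r} {i : Fin (2 * r)} (h : (host r).Adj (c v) (row j i)) :
    v = 0 ∧ ((i : ℕ) = 0 ∨ (i : ℕ) + 1 = 2 * r) := by
  rw [host_adj] at h
  simpa [HV.rel] using h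

lemma z_adj_row {k : Fin (r + 1)} {j : Fin r} {i : Fin (2 * r)}
    (h : (host r).Adj (z k) (row j i)) :
    ((k : ℕ) = j ∧ (i : ℕ) % 2 = 1) ∨ ((k : ℕ) = j + 1 ∧ (i : ℕ) % 2 = 0) := by
  rw [host_adj] at h
  simpa [HV.rel] using h

lemma z_adj_z {k k' : Fin (r + 1)} (h : (host r).Adj (z k) (z k')) :
    (k' : ℕ) = k + 1 ∨ (k : ℕ) = k' + 1 := by
  rw [host_adj] at h
  simp only [HV.rel] at h
  exact h.2

end Pool.Agent.Y395.EP
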