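import Mathlib
import Pool.Agent.Y395.EP.Host

set_option autoImplicit false

namespace Pool.Agent.Y395.EP

open HV

variable {r : ℕ} {G : SimpleGraph (HV r)}

lemma pigeon {α : Type*} {D : Set α} (hfin : D.Finite) {n : ℕ} (hlt : D.ncard < n)
    (P : Fin n → α → Prop) (hP : ∀ i j e, P i e → P j e → i = j) : ∃ i, ∀ e ∈ D, ¬ P i e := by
  by_contra hcon
  push Not at hcon
  choose f hf hPf using hcon
  have hinj : Function.Injective f := by
    intro i j hij
    have h1 := hPf i
    rw [hij] at h1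
    exact hP i j _ h1 (hPf j)
  have h1 : (Set.range f).ncard = n := by
    rw [← Set.image_univ, Set.ncard_image_of_injective _ hinj, Set.ncard_univ, Nat.card_eq_fintype_card,
      Fintype.card_fin]
  have h2 : (Set.range f).ncard ≤ D.ncard := Set.ncard_le_ncard (by rintro _ ⟨i, rfl⟩; exact hf i) hfin
  omega

lemma H_cases {w w' : Fin 23} (h : hrel w w') :
    (∃ u v, w = inc u ∧ w' = inc v ∧ J.Adj u v) ∨ (w = 0 ∧ w' = 21) ∨ (w = 0 ∧ w' = 22) ∨
      (w = 21 ∧ w' = 22) := by
  have hw := w.2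
  have hw' := w'.2
  rcases h with ⟨h1, h2⟩ | ⟨h1, h2⟩ | ⟨h1, h2⟩
  · left
    have h3 : (w : ℕ) < 21 ∧ (w : ℕ) ≠ w' := by
      unfold jrel at h2
      omega
    refine ⟨⟨w, h3.1⟩, ⟨w', by omega⟩, Fin.ext rfl, Fin.ext rfl, ?_⟩
    rw [J_adj]
    refine ⟨?_, Or.inl h2⟩
    intro h4
    rw [Fin.mk.injEq] at h4
    exact h3.2 h4
  · right
    have h3 : w = 0 := Fin.ext h1
    by_cases h4 : (w' : ℕ) = 21
    · exact Or.inl ⟨h3, Fin.ext h4⟩
    · exact Or.inr (Or.inl ⟨h3, Fin.ext (by show (w' : ℕ) = 22; omega)⟩)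
  · right; right; right
    exact ⟨Fin.ext h1, Fin.ext h2⟩

/-- data describing a minor `H` in a subgraph `G` of the host -/
structure Data (G : SimpleGraph (HV r)) (hr : 2 ≤ r) : Prop where
  mid : ∀ u v : Fin 21, J.Adj u v → s(u, v) ≠ s(2, 3) →
    ∃ i : Fin r, G.Adj (m u v i) (κ r u) ∧ G.Adj (m u v i) (κ r v)
  rows : ∃ j : Fin r, (∀ i i' : Fin (2 * r), (i' : ℕ) = i + 1 → G.Adj (row j i) (row j i')) ∧
    G.Adj (c 0) (row j ⟨0, by omega⟩) ∧ G.Adj (c 0) (row j ⟨2 * r - 1, by omega⟩) ∧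
    G.Adj (z j.castSucc) (z j.succ) ∧
    ∀ i : Fin r, i ≠ j → ∃ p q : Fin (2 * r), G.Adj (z i.castSucc) (row i p) ∧
      G.Adj (row i p) (row i q) ∧ G.Adj (row i q) (z i.succ)

lemma Data.isMinor {hr : 2 ≤ r} (h : Data G hr) : IsMinor H G := by
  classical
  obtain ⟨hmid, j, hrow, ha1, ha2, hej, hcr⟩ := h
  have hmid' : ∀ u v : Fin 21, ∃ i : Fin r, J.Adj u v → s(u, v) ≠ s(2, 3) →
      (G.Adj (m u v i) (κ r u) ∧ G.Adj (m u v i) (κ r v)) := by
    intro u v
    by_cases h1 : J.Adj u v ∧ s(u, v) ≠ s(2, 3)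
    · obtain ⟨i, hi⟩ := hmid u v h1.1 h1.2
      exact ⟨i, fun _ _ => hi⟩
    · exact ⟨⟨0, by omega⟩, fun h2 h3 => absurd ⟨h2, h3⟩ h1⟩
  choose ι hι using hmid'
  have hcr' : ∀ i : Fin r, ∃ p q : Fin (2 * r), i ≠ j → (G.Adj (z i.castSucc) (row i p) ∧
      G.Adj (row i p) (row i q) ∧ G.Adj (row i q) (z i.succ)) := by
    intro i
    by_cases h1 : i = j
    · exact ⟨⟨0, by omega⟩, ⟨0, by omega⟩, fun h2 => absurd h1 h2⟩
    · obtain ⟨p, q, hpq⟩ := hcr i h1
      exact ⟨p, q, fun _ => hpq⟩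
  choose p q hpq using hcr'
  -- the pieces of the crossing path
  let K : Fin r → Set (HV r) := fun i =>
    {w | w = z i.castSucc ∨ (i ≠ j ∧ (w = row i (p i) ∨ w = row i (q i)))}
  have hKz : ∀ i, z i.castSucc ∈ K i := fun i => Or.inl rfl
  have hK : ∀ i, Cn G (K i) := by
    intro i
    by_cases hij : i = j
    · have : K i = {z i.castSucc} := by
        ext w
        simp [K, hij]
      rw [this]
      exact cn_singleton _
    · have : K i = ({z i.castSucc} ∪ {row i (p i)}) ∪ {row i (q i)} := by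
        ext w
        simp only [K, hij, Set.mem_ofPred_eq, Set.mem_union, Set.mem_singleton_iff, ne_eq,
          not_false_eq_true, true_and, or_assoc]
      rw [this]
      obtain ⟨h1, h2, h3⟩ := hpq i hij
      refine ((cn_singleton _).union_adj (cn_singleton _) ⟨_, rfl, _, rfl, h1⟩).union_adj
        (cn_singleton _) ⟨_, Or.inr rfl, _, rfl, h2⟩
  have hKn : ∀ i : Fin r, ∃ w ∈ K i, G.Adj w (z i.succ) := by
    intro i
    by_cases hij : i = j
    · exact ⟨z i.castSucc, Or.inl rfl, by rw [hij]; exact hej⟩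
    · exact ⟨row i (q i), Or.inr ⟨hij, Or.inr rfl⟩, (hpq i hij).2.2⟩
  let U : ℕ → Set (HV r) := fun k => {w | ∃ i : Fin r, (i : ℕ) ≤ k ∧ w ∈ K i}
  have hU : ∀ k, k < r → Cn G (U k) := by
    intro k
    induction k with
    | zero =>
      intro _
      have : U 0 = K ⟨0, by omega⟩ := by
        ext w
        constructor
        · rintro ⟨i, hi, hw⟩
          have : i = ⟨0, by omega⟩ := Fin.ext (by simp only; omega)
          rw [← this]
          exact hw
        · intro hw
          exact ⟨⟨0, by omega⟩, le_refl _, hw⟩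
      rw [this]
      exact hK _
    | succ k ih =>
      intro hk
      have h1 := ih (by omega)
      have : U (k + 1) = U k ∪ K ⟨k + 1, hk⟩ := by
        ext w
        constructor
        · rintro ⟨i, hi, hw⟩
          by_cases h2 : (i : ℕ) ≤ k
          · exact Or.inl ⟨i, h2, hw⟩
          · have : i = ⟨k + 1, hk⟩ := Fin.ext (by simp only; omega)
            rw [this] at hw
            exact Or.inr hw
        · rintro (⟨i, hi, hw⟩ | hw)
          · exact ⟨i, by omega, hw⟩
          · exact ⟨⟨k + 1, hk⟩, le_refl _, hw⟩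
      rw [this]
      refine h1.union_adj (hK _) ?_
      obtain ⟨w, hw, hadj⟩ := hKn ⟨k, by omega⟩
      exact ⟨w, ⟨⟨k, by omega⟩, le_refl _, hw⟩, _, hKz _, hadj⟩
  set VX : Set (HV r) := U (r - 1) with hVX
  have hVXc : Cn G VX := hU (r - 1) (by omega)
  have hVX0 : z 0 ∈ VX := ⟨⟨0, by omega⟩, by simp, Or.inl rfl⟩
  have hVXm : ∀ w ∈ VX, (∃ i : Fin r, w = z i.castSucc) ∨ ∃ i : Fin r, i ≠ j ∧ ∃ x, w = row i x := by
    rintro w ⟨i, _, hw | ⟨hij, hw | hw⟩⟩
    · exact Or.inl ⟨i, hw⟩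
    · exact Or.inr ⟨i, hij, _, hw⟩
    · exact Or.inr ⟨i, hij, _, hw⟩
  have hVXl : ∃ w ∈ VX, G.Adj w (z (Fin.last r)) := by
    obtain ⟨w, hw, hadj⟩ := hKn ⟨r - 1, by omega⟩
    refine ⟨w, ⟨⟨r - 1, by omega⟩, le_refl _, hw⟩, ?_⟩
    have : (⟨r - 1, by omega⟩ : Fin r).succ = Fin.last r := Fin.ext (by simp; omega)
    rw [this] at hadj
    exact hadj
  -- stars
  let St : Fin 21 → Set (HV r) := fun v =>
    {w | w = κ r v ∨ ∃ v', J.Adj v v' ∧ s(v, v') ≠ s(2, 3) ∧ w = m v v' (ι v v')}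
  have hSt : ∀ v, Cn G (St v) := by
    intro v
    refine cn_of_root (r := κ r v) (Or.inl rfl) ?_
    rintro w (rfl | ⟨v', h1, h2, rfl⟩)
    · exact ⟨{κ r v}, by rintro x rfl; exact Or.inl rfl, cn_singleton _, rfl, rfl⟩
    · refine ⟨{κ r v} ∪ {m v v' (ι v v')}, ?_, ?_, Or.inl rfl, Or.inr rfl⟩
      · rintro x (rfl | rfl)
        · exact Or.inl rfl
        · exact Or.inr ⟨v', h1, h2, rfl⟩
      · exact (cn_singleton _).union_adj (cn_singleton _) ⟨_, rfl, _, rfl, (hι v v' h1 h2).1.symm⟩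
  let BJ : Fin 21 → Set (HV r) := fun v => if v = 2 then St v ∪ VX else St v
  have hBJ : ∀ v, St v ⊆ BJ v := by
    intro v w hw
    simp only [BJ]
    split_ifs
    · exact Or.inl hw
    · exact hw
  have hBJc : ∀ v, Cn G (BJ v) := by
    intro v
    simp only [BJ]
    split_ifs with hv
    · refine (hSt v).union_inter hVXc (u := z 0) ?_ hVX0
      left
      rw [hv, κ_two]
    · exact hSt v
  -- rows
  let R : ℕ → Set (HV r) := fun k => {w | ∃ i : Fin (2 * r), (i : ℕ) ≤ k ∧ w = row j i}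
  have hR : ∀ k, k < 2 * r → Cn G (R k) := by
    intro k
    induction k with
    | zero =>
      intro _
      have : R 0 = {row j ⟨0, by omega⟩} := by
        ext w
        constructor
        · rintro ⟨i, hi, hw⟩
          have : i = ⟨0, by omega⟩ := Fin.ext (by simp only; omega)
          rw [← this]
          exact hw
        · intro hw
          exact ⟨⟨0, by omega⟩, le_refl _, hw⟩
      rw [this]
      exact cn_singleton _
    | succ k ih =>
      intro hk
      have h1 := ih (by omega)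
      have : R (k + 1) = R k ∪ {row j ⟨k + 1, hk⟩} := by
        ext w
        constructor
        · rintro ⟨i, hi, hw⟩
          by_cases h2 : (i : ℕ) ≤ k
          · exact Or.inl ⟨i, h2, hw⟩
          · have : i = ⟨k + 1, hk⟩ := Fin.ext (by simp only; omega)
            rw [this] at hw
            exact Or.inr hw
        · rintro (⟨i, hi, hw⟩ | hw)
          · exact ⟨i, by omega, hw⟩
          · exact ⟨⟨k + 1, hk⟩, le_refl _, hw⟩
      rw [this]
      exact h1.union_adj (cn_singleton _)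
        ⟨row j ⟨k, by omega⟩, ⟨⟨k, by omega⟩, le_refl _, rfl⟩, _, rfl, hrow _ _ rfl⟩
  have hR1 := hR (2 * r - 2) (by omega)
  set T1 := R (2 * r - 2) with hT1
  let T2 : Set (HV r) := {row j ⟨2 * r - 1, by omega⟩}
  let B : Fin 23 → Set (HV r) := fun w =>
    if hw : (w : ℕ) < 21 then BJ ⟨w, hw⟩ else if w = 21 then T1 else T2
  have hBi : ∀ v, B (inc v) = BJ v := by
    intro v
    have h1 : ((inc v : Fin 23) : ℕ) < 21 := v.2
    simp only [B]
    rw [dif_pos h1]
    rfl
  have hB21 : B 21 = T1 := by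
    have : ¬ ((21 : Fin 23) : ℕ) < 21 := by decide
    simp only [B]
    rw [dif_neg this]
    simp
  have hB22 : B 22 = T2 := by
    have : ¬ ((22 : Fin 23) : ℕ) < 21 := by decide
    have h' : (22 : Fin 23) ≠ 21 := by decide
    simp only [B]
    rw [dif_neg this]
    exact if_neg h'
  have hall : ∀ w : Fin 23, (∃ v, w = inc v) ∨ w = 21 ∨ w = 22 := by
    intro w
    by_cases h1 : (w : ℕ) < 21
    · exact Or.inl ⟨⟨w, h1⟩, Fin.ext rfl⟩
    · right
      have := w.2
      by_cases h2 : (w : ℕ) = 21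
      · exact Or.inl (Fin.ext h2)
      · exact Or.inr (Fin.ext (by show (w : ℕ) = 22; omega))
  -- disjointness
  have dSt : ∀ u v, u ≠ v → ∀ w ∈ St u, w ∉ St v := by
    rintro u v huv w (rfl | ⟨v', _, _, rfl⟩) (h | ⟨v'', _, _, h⟩)
    · exact huv (κ_inj (by omega) h)
    · exact κ_ne_m h
    · exact κ_ne_m h.symm
    · rw [HV.m.injEq] at h
      exact huv h.1
  have dStX : ∀ u, u ≠ 2 → ∀ w ∈ St u, w ∉ VX := by
    rintro u hu w hw hwX
    rcases hVXm w hwX with ⟨i, rfl⟩ | ⟨i, _, x, rfl⟩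
    · rcases hw with h | ⟨v'', _, _, h⟩
      · unfold κ at h
        rw [if_neg hu] at h
        split_ifs at h with h1
        rw [HV.z.injEq] at h
        have := congrArg Fin.val h
        simp at this
        omega
      · exact absurd h (by simp)
    · rcases hw with h | ⟨v'', _, _, h⟩
      · exact κ_ne_row h.symm
      · exact absurd h (by simp)
  have dStR : ∀ u, ∀ w ∈ St u, ∀ j' x, w ≠ row j' x := by
    rintro u w (rfl | ⟨v', _, _, rfl⟩) j' x
    · exact κ_ne_row
    · simp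
  have dJR : ∀ u, ∀ w ∈ BJ u, ∀ x, w ≠ row j x := by
    intro u w hw x
    simp only [BJ] at hw
    split_ifs at hw with hu
    · rcases hw with hw | hw
      · exact dStR u w hw j x
      · rcases hVXm w hw with ⟨i, rfl⟩ | ⟨i, hij, x', rfl⟩
        · simp
        · intro h
          rw [HV.row.injEq] at h
          exact hij h.1
    · exact dStR u w hw j x
  have dJJ : ∀ u v, u ≠ v → Disjoint (BJ u) (BJ v) := by
    intro u v huv
    rw [Set.disjoint_left]
    intro w hw hw'
    simp only [BJ] at hw hw'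
    split_ifs at hw hw' with h1 h2 h2
    · exact huv (h1.trans h2.symm)
    · rcases hw with hw | hw
      · exact dSt u v huv w hw hw'
      · exact dStX v h2 w hw' hw
    · rcases hw' with hw' | hw'
      · exact dSt u v huv w hw hw'
      · exact dStX u h1 w hw hw'
    · exact dSt u v huv w hw hw'
  have dJ1 : ∀ u, Disjoint (BJ u) T1 := by
    intro u
    rw [Set.disjoint_left]
    rintro w hw ⟨i, _, rfl⟩
    exact dJR u _ hw i rfl
  have dJ2 : ∀ u, Disjoint (BJ u) T2 := by
    intro u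
    rw [Set.disjoint_left]
    rintro w hw hw'
    exact dJR u _ hw _ hw'
  have d12 : Disjoint T1 T2 := by
    rw [Set.disjoint_left]
    rintro w ⟨i, hi, rfl⟩ hw'
    have h1 : row j i = row j ⟨2 * r - 1, by omega⟩ := hw'
    rw [HV.row.injEq] at h1
    have := congrArg Fin.val h1.2
    simp only at this
    omega
  -- touching
  have tJJ : ∀ u v, J.Adj u v → Tch G (BJ u) (BJ v) := by
    intro u v huv
    by_cases h : s(u, v) = s(2, 3)
    · obtain ⟨w, hw, hadj⟩ := hVXl
      have hBx : w ∈ BJ 2 := by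
        have : BJ 2 = St 2 ∪ VX := if_pos rfl
        rw [this]
        exact Or.inr hw
      have hBy : z (Fin.last r) ∈ BJ 3 := by
        refine hBJ 3 (Or.inl ?_)
        rw [κ_three]
      rw [Sym2.eq_iff] at h
      rcases h with ⟨rfl, rfl⟩ | ⟨rfl, rfl⟩
      · exact ⟨w, hBx, _, hBy, hadj⟩
      · exact ⟨_, hBy, w, hBx, hadj.symm⟩
    · obtain ⟨h1, h2⟩ := hι u v huv h
      exact ⟨_, hBJ u (Or.inr ⟨v, huv, h, rfl⟩), _, hBJ v (Or.inl rfl), h2⟩
  have hc0 : c 0 ∈ BJ 0 := by
    refine hBJ 0 (Or.inl ?_)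
    rw [κ_zero]
  have t01 : Tch G (BJ 0) T1 := ⟨_, hc0, _, ⟨⟨0, by omega⟩, Nat.zero_le _, rfl⟩, ha1⟩
  have t02 : Tch G (BJ 0) T2 := ⟨_, hc0, _, rfl, ha2⟩
  have t12 : Tch G T1 T2 := ⟨row j ⟨2 * r - 2, by omega⟩, ⟨⟨2 * r - 2, by omega⟩, le_refl _, rfl⟩,
    _, rfl, hrow _ _ (by simp only; omega)⟩
  have i0 : (0 : Fin 23) = inc 0 := rfl
  have hdd : ∀ w w', w ≠ w' → Disjoint (B w) (B w') := by
    intro w w' hww
    rcases hall w with ⟨u, rfl⟩ | rfl | rfl <;> rcases hall w' with ⟨v, rfl⟩ | rfl | rfl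
    · rw [hBi, hBi]
      exact dJJ u v (fun h => hww (by rw [h]))
    · rw [hBi, hB21]; exact dJ1 u
    · rw [hBi, hB22]; exact dJ2 u
    · rw [hBi, hB21]; exact (dJ1 v).symm
    · exact absurd rfl hww
    · rw [hB21, hB22]; exact d12
    · rw [hBi, hB22]; exact (dJ2 v).symm
    · rw [hB21, hB22]; exact d12.symm
    · exact absurd rfl hww
  have htr : ∀ w w' : Fin 23, hrel w w' → Tch G (B w) (B w') := by
    intro w w' h
    rcases H_cases h with ⟨u, v, rfl, rfl, huv⟩ | ⟨rfl, rfl⟩ | ⟨rfl, rfl⟩ | ⟨rfl, rfl⟩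
    · rw [hBi, hBi]; exact tJJ u v huv
    · rw [i0, hBi, hB21]; exact t01
    · rw [i0, hBi, hB22]; exact t02
    · rw [hB21, hB22]; exact t12
  refine ⟨B, ?_, hdd, ?_⟩
  · intro w
    rcases hall w with ⟨v, rfl⟩ | rfl | rfl
    · rw [hBi]; exact hBJc v
    · rw [hB21]; exact hR1
    · rw [hB22]; exact cn_singleton _
  · intro w w' h
    rw [H_adj] at h
    rcases h.2 with h1 | h1
    · exact htr w w' h1
    · exact (htr w' w h1).symm

lemma κ_adj_m (hr : 1 ≤ r) {u v : Fin 21} (h : J.Adj u v) (h' : s(u, v) ≠ s(2, 3)) (i : Fin r) :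
    (host r).Adj (m u v i) (κ r u) ∧ (host r).Adj (m u v i) (κ r v) := by
  constructor <;>
  · rw [host_adj]
    exact ⟨κ_ne_m.symm, Or.inl ⟨h, h', by simp⟩⟩

/-- the host graph keeps a minor `H` when fewer than `r` edges are deleted -/
theorem survive (hr : 2 ≤ r) {D : Set (Sym2 (HV r))} (hfin : D.Finite) (hlt : D.ncard < r)
    (hG : ∀ u v, (host r).Adj u v → s(u, v) ∉ D → G.Adj u v) : IsMinor H G := by
  refine Data.isMinor (hr := hr) ⟨?_, ?_⟩
  · intro u v huv huv'
    obtain ⟨i, hi⟩ := pigeon hfin hlt (fun i e => e = s(m u v i, κ r u) ∨ e = s(m u v i, κ r v)) (by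
      have aux : ∀ (i j : Fin r) (a b : Fin 21), s(m u v i, κ r a) = s(m u v j, κ r b) → i = j := by
        intro i j a b h
        rw [Sym2.eq_iff] at h
        rcases h with h | h
        · rw [HV.m.injEq] at h
          exact h.1.2.2
        · exact absurd h.1.symm κ_ne_m
      rintro i j e (rfl | rfl) (h | h) <;> exact aux _ _ _ _ h)
    obtain ⟨h1, h2⟩ := κ_adj_m (by omega) huv huv' i
    exact ⟨i, hG _ _ h1 (fun h => hi _ h (Or.inl rfl)), hG _ _ h2 (fun h => hi _ h (Or.inr rfl))⟩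
  · obtain ⟨j, hj⟩ := pigeon hfin hlt (fun j e => (∃ i i', e = s(row j i, row j i')) ∨
      (∃ i, e = s(c 0, row j i)) ∨ e = s(z j.castSucc, z j.succ)) (by
        rintro j j' e (⟨i, i', rfl⟩ | ⟨i, rfl⟩ | rfl) (⟨i1, i1', h⟩ | ⟨i1, h⟩ | h) <;>
          rw [Sym2.eq_iff] at h
        · simp only [HV.row.injEq] at h
          rcases h with h | h
          · exact h.1.1
          · exact h.1.1
        · simp at h
        · simp at h
        · simp at h
        · simp at h
          exact h.1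
        · simp at h
        · simp at h
        · simp at h
        · simp only [HV.z.injEq] at h
          rcases h with h | h
          · exact Fin.castSucc_injective _ h.1
          · exfalso
            have h1 := congrArg Fin.val h.1
            have h2 := congrArg Fin.val h.2
            simp at h1 h2
            omega)
    refine ⟨j, ?_, ?_, ?_, ?_, ?_⟩
    · intro i i' hii
      refine hG _ _ ?_ (fun h => hj _ h (Or.inl ⟨i, i', rfl⟩))
      rw [host_adj]
      refine ⟨?_, Or.inl ⟨rfl, hii⟩⟩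
      intro h
      rw [HV.row.injEq] at h
      rw [h.2] at hii
      omega
    · refine hG _ _ ?_ (fun h => hj _ h (Or.inr (Or.inl ⟨_, rfl⟩)))
      rw [host_adj]
      exact ⟨by simp, Or.inl ⟨rfl, Or.inl rfl⟩⟩
    · refine hG _ _ ?_ (fun h => hj _ h (Or.inr (Or.inl ⟨_, rfl⟩)))
      rw [host_adj]
      exact ⟨by simp, Or.inl ⟨rfl, Or.inr (by simp only; omega)⟩⟩
    · refine hG _ _ ?_ (fun h => hj _ h (Or.inr (Or.inr rfl)))
      rw [host_adj]
      refine ⟨?_, Or.inl (by simp [HV.rel])⟩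
      intro h
      rw [HV.z.injEq] at h
      have := congrArg Fin.val h
      simp at this
    · intro i hij
      obtain ⟨p, hp⟩ := pigeon hfin hlt (fun (p : Fin r) e =>
        e = s(z i.castSucc, row i ⟨2 * p + 1, by omega⟩) ∨
        e = s(row i ⟨2 * p + 1, by omega⟩, row i ⟨2 * p, by omega⟩) ∨
        e = s(row i ⟨2 * p, by omega⟩, z i.succ)) (by
          rintro p p' e (rfl | rfl | rfl) (h | h | h) <;>
          · rw [Sym2.eq_iff] at h
            simp at h <;>
            first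
              | exact Fin.ext h
              | exact Fin.ext (by omega)
              | omega)
      refine ⟨⟨2 * p + 1, by omega⟩, ⟨2 * p, by omega⟩, ?_, ?_, ?_⟩
      · refine hG _ _ ?_ (fun h => hp _ h (Or.inl rfl))
        rw [host_adj]
        exact ⟨by simp, Or.inl (Or.inl ⟨by simp, by simp⟩)⟩
      · refine hG _ _ ?_ (fun h => hp _ h (Or.inr (Or.inl rfl)))
        rw [host_adj]
        exact ⟨by simp, Or.inr ⟨rfl, by simp⟩⟩
      · refine hG _ _ ?_ (fun h => hp _ h (Or.inr (Or.inr rfl)))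
        rw [host_adj]
        exact ⟨by simp, Or.inr (Or.inr ⟨by simp, by simp⟩)⟩

end Pool.Agent.Y395.EP
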