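import Mathlib
import Pool.Agent.Y395.EP.Defs
import Pool.Agent.Y395.EP.JGraph

set_option autoImplicit false

namespace Pool.Agent.Y395.EP

/-- first coordinates of the drawing -/
def px (n : ℕ) : ℤ :=
  if n = 0 then -21 else if n = 1 then 20 else if n = 21 then -23 else if n = 22 then -22
  else if n % 3 = 2 then 0 else if n % 3 = 0 then -2 else 3

/-- second coordinates of the drawing -/
def py (n : ℕ) : ℤ :=
  if n = 0 then 12 else if n = 1 then 11 else if n = 21 then 15 else if n = 22 then 15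
  else if n % 3 = 2 then 4 * ((n / 3 : ℕ) : ℤ) else 4 * ((n / 3 : ℕ) : ℤ) - 2

/-- orientation of three drawn vertices -/
def ori (a b x : ℕ) : ℤ := (px b - px a) * (py x - py a) - (py b - py a) * (px x - px a)

/-- one of the two segments lies strictly on one side of the line through the other -/
def sep (a b x y : ℕ) : Prop :=
  (0 < ori a b x ∧ 0 < ori a b y) ∨ (ori a b x < 0 ∧ ori a b y < 0) ∨
    (0 < ori x y a ∧ 0 < ori x y b) ∨ (ori x y a < 0 ∧ ori x y b < 0)

instance (a b x y : ℕ) : Decidable (sep a b x y) := by unfold sep; infer_instance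

/-- edges of `H`, as a list -/
def edgeList : List (ℕ × ℕ) :=
  ((List.range 23).flatMap fun u => (List.range 23).map fun v => (u, v)).filter
    fun e => hrel e.1 e.2

lemma mem_edgeList {u v : Fin 23} (h : hrel u v) : ((u : ℕ), (v : ℕ)) ∈ edgeList := by
  unfold edgeList
  rw [List.mem_filter]
  refine ⟨?_, by simpa using h⟩
  rw [List.mem_flatMap]
  refine ⟨u, List.mem_range.2 u.2, ?_⟩
  rw [List.mem_map]
  exact ⟨v, List.mem_range.2 v.2, rfl⟩

lemma sep_all : ∀ e ∈ edgeList, ∀ f ∈ edgeList, e.1 ≠ f.1 → e.1 ≠ f.2 → e.2 ≠ f.1 → e.2 ≠ f.2 →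
    sep e.1 e.2 f.1 f.2 := by decide +kernel

lemma ori_all : ∀ e ∈ edgeList, ∀ w ∈ List.range 23, w ≠ e.1 → w ≠ e.2 → ori e.1 e.2 w ≠ 0 := by
  decide +kernel

lemma pt_inj : ∀ a ∈ List.range 23, ∀ b ∈ List.range 23, px a = px b → py a = py b → a = b := by
  decide +kernel

/-- the drawing -/
noncomputable def pt (v : Fin 23) : ℝ × ℝ := ((px v : ℝ), (py v : ℝ))

/-- real version of `ori` -/
noncomputable def oriR (a b x : ℝ × ℝ) : ℝ :=
  (b.1 - a.1) * (x.2 - a.2) - (b.2 - a.2) * (x.1 - a.1)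

lemma oriR_pt (a b x : Fin 23) : oriR (pt a) (pt b) (pt x) = (ori a b x : ℝ) := by
  simp only [oriR, pt, ori]
  push_cast
  ring

lemma oriR_seg {a b c d x : ℝ × ℝ} (h : x ∈ segment ℝ c d) : ∃ s t : ℝ, 0 ≤ s ∧ 0 ≤ t ∧ s + t = 1 ∧
    oriR a b x = s * oriR a b c + t * oriR a b d := by
  obtain ⟨s, t, hs, ht, hst, rfl⟩ := h
  refine ⟨s, t, hs, ht, hst, ?_⟩
  have hs' : s = 1 - t := by linarith
  subst hs'
  simp only [oriR, Prod.fst_add, Prod.snd_add, Prod.smul_fst, Prod.smul_snd, smul_eq_mul]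
  ring

lemma oriR_left (a b : ℝ × ℝ) : oriR a b a = 0 := by simp [oriR]
lemma oriR_right (a b : ℝ × ℝ) : oriR a b b = 0 := by simp [oriR]; ring

lemma oriR_on {a b x : ℝ × ℝ} (h : x ∈ segment ℝ a b) : oriR a b x = 0 := by
  obtain ⟨s, t, _, _, _, h1⟩ := oriR_seg (a := a) (b := b) h
  rw [h1, oriR_left, oriR_right]
  ring

lemma oriR_pos {a b c d x : ℝ × ℝ} (h : x ∈ segment ℝ c d) (hc : 0 < oriR a b c)
    (hd : 0 < oriR a b d) : 0 < oriR a b x := by
  obtain ⟨s, t, hs, ht, hst, h1⟩ := oriR_seg (a := a) (b := b) h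
  rw [h1]
  rcases hs.eq_or_lt with h2 | h2
  · rw [← h2] at hst ⊢
    rw [zero_add] at hst
    rw [hst]
    linarith
  · have := mul_pos h2 hc
    have := mul_nonneg ht hd.le
    linarith

lemma oriR_neg {a b c d x : ℝ × ℝ} (h : x ∈ segment ℝ c d) (hc : oriR a b c < 0)
    (hd : oriR a b d < 0) : oriR a b x < 0 := by
  obtain ⟨s, t, hs, ht, hst, h1⟩ := oriR_seg (a := a) (b := b) h
  rw [h1]
  rcases hs.eq_or_lt with h2 | h2
  · rw [← h2] at hst ⊢
    rw [zero_add] at hst
    rw [hst]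
    linarith
  · have := mul_pos_of_neg_of_neg (neg_neg_of_pos h2) hc
    have := mul_nonneg ht (neg_pos.2 hd).le
    nlinarith

lemma seg_disj {a b x y : Fin 23} (h : sep a b x y) :
    Disjoint (segment ℝ (pt a) (pt b)) (segment ℝ (pt x) (pt y)) := by
  rw [Set.disjoint_left]
  intro w h1 h2
  have e1 := oriR_on h1
  have e2 := oriR_on h2
  rcases h with ⟨h3, h4⟩ | ⟨h3, h4⟩ | ⟨h3, h4⟩ | ⟨h3, h4⟩
  · have := oriR_pos (a := pt a) (b := pt b) h2 (by rw [oriR_pt]; exact_mod_cast h3)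
      (by rw [oriR_pt]; exact_mod_cast h4)
    linarith
  · have := oriR_neg (a := pt a) (b := pt b) h2 (by rw [oriR_pt]; exact_mod_cast h3)
      (by rw [oriR_pt]; exact_mod_cast h4)
    linarith
  · have := oriR_pos (a := pt x) (b := pt y) h1 (by rw [oriR_pt]; exact_mod_cast h3)
      (by rw [oriR_pt]; exact_mod_cast h4)
    linarith
  · have := oriR_neg (a := pt x) (b := pt y) h1 (by rw [oriR_pt]; exact_mod_cast h3)
      (by rw [oriR_pt]; exact_mod_cast h4)
    linarith

theorem planar_H : Planar H := by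
  refine ⟨pt, ?_, ?_, ?_⟩
  · intro a b hab
    simp only [pt, Prod.mk.injEq, Int.cast_inj] at hab
    exact Fin.ext (pt_inj a (List.mem_range.2 a.2) b (List.mem_range.2 b.2) hab.1 hab.2)
  · intro u v w huv hwu hwv hmem
    rw [H_adj] at huv
    have hwu' : (w : ℕ) ≠ u := fun h => hwu (Fin.ext h)
    have hwv' : (w : ℕ) ≠ v := fun h => hwv (Fin.ext h)
    rcases huv.2 with h | h
    · have h1 := ori_all _ (mem_edgeList h) w (List.mem_range.2 w.2) hwu' hwv'
      have h2 := oriR_on hmem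
      rw [oriR_pt] at h2
      exact h1 (by exact_mod_cast h2)
    · have h1 := ori_all _ (mem_edgeList h) w (List.mem_range.2 w.2) hwv' hwu'
      rw [segment_symm] at hmem
      have h2 := oriR_on hmem
      rw [oriR_pt] at h2
      exact h1 (by exact_mod_cast h2)
  · intro u v x y huv hxy h1 h2 h3 h4
    have n1 : (u : ℕ) ≠ x := fun h => h1 (Fin.ext h)
    have n2 : (u : ℕ) ≠ y := fun h => h2 (Fin.ext h)
    have n3 : (v : ℕ) ≠ x := fun h => h3 (Fin.ext h)
    have n4 : (v : ℕ) ≠ y := fun h => h4 (Fin.ext h)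
    rw [H_adj] at huv hxy
    rcases huv.2 with a | a <;> rcases hxy.2 with b | b
    · exact seg_disj (sep_all _ (mem_edgeList a) _ (mem_edgeList b) n1 n2 n3 n4)
    · rw [segment_symm ℝ (pt x)]
      exact seg_disj (sep_all _ (mem_edgeList a) _ (mem_edgeList b) n2 n1 n4 n3)
    · rw [segment_symm ℝ (pt u)]
      exact seg_disj (sep_all _ (mem_edgeList a) _ (mem_edgeList b) n3 n4 n1 n2)
    · rw [segment_symm ℝ (pt x), segment_symm ℝ (pt u)]
      exact seg_disj (sep_all _ (mem_edgeList a) _ (mem_edgeList b) n4 n3 n2 n1)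

end Pool.Agent.Y395.EP
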