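import Mathlib
import Pool.Agent.Y395.EP.Host

set_option autoImplicit false

namespace Pool.Agent.Y395.EP

open HV

variable {r : ℕ} {G : SimpleGraph (HV r)}

lemma lev_ne_of_notMem {S : Set (HV r)} {k : ℕ} {hk : k < r + 1} (h : z ⟨k, hk⟩ ∉ S)
    {w : HV r} (hw : w ∈ S) (hW : IsW w) : lev w ≠ 2 * k := by
  intro h1
  obtain ⟨h2, h3⟩ := eq_z_of_lev hW h1
  exact h (h3 ▸ hw)

lemma below (hG : G ≤ host r) {S : Set (HV r)} (hS : Cn G S) (hc : c 0 ∉ S)
    (hl : z (Fin.last r) ∉ S) (h0 : z 0 ∈ S) {k : ℕ} {hk : k < r + 1} (hz : z ⟨k, hk⟩ ∉ S) :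
    ∀ w ∈ S, IsW w → lev w < 2 * k := by
  have hk0 : 0 < k := by
    rcases Nat.eq_zero_or_pos k with h | h
    · exfalso
      subst h
      exact hz h0
    · exact h
  refine hS.spread h0 ?_ ?_
  · intro _
    simp only [lev]
    simpa using hk0
  · intro u hu hPu w hw huw hWw
    have hne := lev_ne_of_notMem hz hw hWw
    by_cases hWu : IsW u
    · have h1 := hPu hWu
      have h2 := adj_lev (hG huw) hWu hWw h1
      omega
    · rcases adj_W_nW (hG huw).symm hWw hWu with h1 | ⟨_, _, _, _, _, _, _, h2 | h2⟩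
      · exact absurd (h1 ▸ hu) hc
      · rw [h2]; simpa [lev] using hk0
      · exact absurd (h2 ▸ hw) hl

lemma above (hG : G ≤ host r) {S : Set (HV r)} (hS : Cn G S) (hc : c 0 ∉ S)
    (hl : z (Fin.last r) ∈ S) (h0 : z 0 ∉ S) {k : ℕ} {hk : k < r + 1} (hz : z ⟨k, hk⟩ ∉ S) :
    ∀ w ∈ S, IsW w → 2 * k < lev w := by
  have hk0 : k < r := by
    rcases Nat.lt_or_ge k r with h | h
    · exact h
    · exfalso
      have : (⟨k, hk⟩ : Fin (r + 1)) = Fin.last r := Fin.ext (by simp; omega)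
      rw [this] at hz
      exact hz hl
  refine hS.spread hl ?_ ?_
  · intro _
    simp only [lev, Fin.val_last]
    omega
  · intro u hu hPu w hw huw hWw
    have hne := lev_ne_of_notMem hz hw hWw
    by_cases hWu : IsW u
    · have h1 := hPu hWu
      have h2 := adj_lev' (hG huw) hWu hWw h1
      omega
    · rcases adj_W_nW (hG huw).symm hWw hWu with h1 | ⟨_, _, _, _, _, _, _, h2 | h2⟩
      · exact absurd (h1 ▸ hu) hc
      · exact absurd (h2 ▸ hw) h0
      · rw [h2]; simp only [lev, Fin.val_last]; omega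

lemma between (hG : G ≤ host r) {S : Set (HV r)} (hS : Cn G S) (hc : c 0 ∉ S)
    {k1 k2 : ℕ} {hk1 : k1 < r + 1} {hk2 : k2 < r + 1} (hz1 : z ⟨k1, hk1⟩ ∉ S)
    (hz2 : z ⟨k2, hk2⟩ ∉ S) {v : HV r} (hv : v ∈ S) (hWv : IsW v) (h1 : 2 * k1 < lev v)
    (h2 : lev v < 2 * k2) : ∀ w ∈ S, IsW w ∧ 2 * k1 < lev w ∧ lev w < 2 * k2 := by
  refine hS.spread hv ⟨hWv, h1, h2⟩ ?_
  rintro u hu ⟨hWu, hu1, hu2⟩ w hw huw
  have hWw : IsW w := by
    by_contra hWw
    rcases adj_W_nW (hG huw) hWu hWw with h3 | ⟨_, _, _, _, _, _, _, h3 | h3⟩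
    · exact hc (h3 ▸ hw)
    · rw [h3] at hu1
      simp [lev] at hu1
    · rw [h3] at hu2
      simp only [lev, Fin.val_last] at hu2
      omega
  have e1 := lev_ne_of_notMem hz1 hw hWw
  have e2 := lev_ne_of_notMem hz2 hw hWw
  have e3 := adj_lev (hG huw) hWu hWw hu2
  have e4 := adj_lev' (hG huw) hWu hWw hu1
  exact ⟨hWw, by omega, by omega⟩

lemma N_below (hG : G ≤ host r) {S : Set (HV r)} (hS : Cn G S) (hN : ∀ w ∈ S, IsN w)
    {k : ℕ} {hk : k < r + 1} (hz : z ⟨k, hk⟩ ∉ S) {v : HV r} (hv : v ∈ S)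
    (h1 : lev v < 2 * k) : ∀ w ∈ S, lev w < 2 * k := by
  refine hS.spread hv h1 ?_
  intro u hu hu1 w hw huw
  have e1 := lev_ne_of_notMem hz hw (hN w hw).isW
  have e3 := adj_lev (hG huw) (hN u hu).isW (hN w hw).isW hu1
  omega

lemma N_above (hG : G ≤ host r) {S : Set (HV r)} (hS : Cn G S) (hN : ∀ w ∈ S, IsN w)
    {k : ℕ} {hk : k < r + 1} (hz : z ⟨k, hk⟩ ∉ S) {v : HV r} (hv : v ∈ S)
    (h1 : 2 * k < lev v) : ∀ w ∈ S, 2 * k < lev w := by
  refine hS.spread hv h1 ?_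
  intro u hu hu1 w hw huw
  have e1 := lev_ne_of_notMem hz hw (hN w hw).isW
  have e3 := adj_lev' (hG huw) (hN u hu).isW (hN w hw).isW hu1
  omega

/-- three disjoint pairwise touching connected sets in the wall contain a vertex `z k` -/
lemma exists_z (hG : G ≤ host r) {p q s : Set (HV r)} (hp : Cn G p) (hq : Cn G q) (hs : Cn G s)
    (dpq : Disjoint p q) (dps : Disjoint p s) (dqs : Disjoint q s) (tpq : Tch G p q)
    (tps : Tch G p s) (tqs : Tch G q s) (hN : ∀ w ∈ p ∪ q ∪ s, IsN w) :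
    ∃ (k : ℕ) (hk : k < r + 1), z ⟨k, hk⟩ ∈ p ∪ q ∪ s := by
  by_contra hcon
  push Not at hcon
  have hU : Cn G (p ∪ q ∪ s) :=
    (hp.union_adj hq tpq).union_adj hs (tps.mono Set.subset_union_left (Set.Subset.refl _))
  obtain ⟨v0, hv0⟩ := hp.ne
  have hrow : ∀ w ∈ p ∪ q ∪ s, ∃ j i, w = row j i := by
    intro w hw
    have h1 := hN w hw
    cases w with
    | c v => simp [IsN] at h1
    | m u v i => simp [IsN] at h1
    | row j i => exact ⟨j, i, rfl⟩
    | z k => exact absurd hw (hcon k k.2)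
  obtain ⟨j0, i0, hji⟩ := hrow v0 (Or.inl (Or.inl hv0))
  have hrow2 : ∀ w ∈ p ∪ q ∪ s, ∃ i, w = row j0 i := by
    refine hU.spread (Or.inl (Or.inl hv0)) ⟨i0, hji⟩ ?_
    rintro u hu ⟨i, rfl⟩ w hw huw
    obtain ⟨j', i', rfl⟩ := hrow w hw
    have := (row_adj_row (hG huw)).1
    subst this
    exact ⟨i', rfl⟩
  let φ : HV r → ℤ := fun w => match w with
    | .row _ i => (i : ℕ)
    | _ => 0
  refine path3 hp hq hs dpq dps dqs tpq tps tqs (φ := φ) (U := p ∪ q ∪ s)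
    (fun w hw => Or.inl (Or.inl hw)) (fun w hw => Or.inl (Or.inr hw)) (fun w hw => Or.inr hw) ?_ ?_
  · intro u hu v hv huv
    obtain ⟨i, rfl⟩ := hrow2 u hu
    obtain ⟨i', rfl⟩ := hrow2 v hv
    have := (row_adj_row (hG huv)).2
    simp only [φ]
    omega
  · intro u hu v hv huv
    obtain ⟨i, rfl⟩ := hrow2 u hu
    obtain ⟨i', rfl⟩ := hrow2 v hv
    simp only [φ] at huv
    rw [HV.row.injEq]
    exact ⟨rfl, Fin.ext (by omega)⟩

/-- Lemma Y, sorted version -/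
lemma lemY_sorted (hG : G ≤ host r) {T1 T2 T3 S : Set (HV r)}
    (h1 : Cn G T1) (h2 : Cn G T2) (h3 : Cn G T3) (hS : Cn G S)
    (n1 : ∀ w ∈ T1, IsN w) (n2 : ∀ w ∈ T2, IsN w) (n3 : ∀ w ∈ T3, IsN w)
    (d12 : Disjoint T1 T2) (d23 : Disjoint T2 T3)
    (dS1 : Disjoint S T1) (dS2 : Disjoint S T2) (dS3 : Disjoint S T3)
    (t1 : Tch G S T1) (t2 : Tch G S T2) (t3 : Tch G S T3) (hc : c 0 ∉ S)
    {k1 k2 k3 : ℕ} {hk1 : k1 < r + 1} {hk2 : k2 < r + 1} {hk3 : k3 < r + 1}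
    (z1 : z ⟨k1, hk1⟩ ∈ T1) (z2 : z ⟨k2, hk2⟩ ∈ T2) (z3 : z ⟨k3, hk3⟩ ∈ T3)
    (h12 : k1 < k2) (h23 : k2 < k3) : False := by
  have a1 : ∀ w ∈ T2, 2 * k1 < lev w := N_above hG h2 n2 (Set.disjoint_left.1 d12 z1) z2
    (by simp only [lev]; omega)
  have a2 : ∀ w ∈ T2, lev w < 2 * k3 := N_below hG h2 n2 (Set.disjoint_right.1 d23 z3) z2
    (by simp only [lev]; omega)
  have a3 : ∀ w ∈ T3, 2 * k2 < lev w := N_above hG h3 n3 (Set.disjoint_left.1 d23 z2) z3
    (by simp only [lev]; omega)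
  have a4 : ∀ w ∈ T1, lev w < 2 * k2 := N_below hG h1 n1 (Set.disjoint_right.1 d12 z2) z1
    (by simp only [lev]; omega)
  have s1 : z ⟨k1, hk1⟩ ∉ S := Set.disjoint_right.1 dS1 z1
  have s2 : z ⟨k2, hk2⟩ ∉ S := Set.disjoint_right.1 dS2 z2
  have s3 : z ⟨k3, hk3⟩ ∉ S := Set.disjoint_right.1 dS3 z3
  obtain ⟨u, hu, v, hv, huv⟩ := t2
  have hWu : IsW u := by
    by_contra hWu
    rcases adj_W_nW (hG huv).symm (n2 v hv).isW hWu with h3 | ⟨_, _, _, _, _, _, _, h3 | h3⟩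
    · exact hc (h3 ▸ hu)
    · have := a1 v hv
      rw [h3] at this
      simp [lev] at this
    · have := a2 v hv
      rw [h3] at this
      simp only [lev, Fin.val_last] at this
      omega
  have e1 := adj_lev (hG huv).symm (n2 v hv).isW hWu (a2 v hv)
  have e2 := adj_lev' (hG huv).symm (n2 v hv).isW hWu (a1 v hv)
  have e3 := lev_ne_of_notMem s1 hu hWu
  have e4 := lev_ne_of_notMem s2 hu hWu
  have e5 := lev_ne_of_notMem s3 hu hWu
  rcases lt_or_gt_of_ne e4 with h | h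
  · have b1 := between hG hS hc s1 s2 hu hWu (by omega) h
    obtain ⟨u', hu', v', hv', huv'⟩ := t3
    have b2 := adj_lev (hG huv') (b1 u' hu').1 (n3 v' hv').isW (b1 u' hu').2.2
    have b3 := a3 v' hv'
    omega
  · have b1 := between hG hS hc s2 s3 hu hWu h (by omega)
    obtain ⟨u', hu', v', hv', huv'⟩ := t1
    have b2 := adj_lev' (hG huv') (b1 u' hu').1 (n1 v' hv').isW (b1 u' hu').2.1
    have b3 := a4 v' hv'
    omega

/-- Lemma Y -/
lemma lemY (hG : G ≤ host r) {T1 T2 T3 S : Set (HV r)}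
    (h1 : Cn G T1) (h2 : Cn G T2) (h3 : Cn G T3) (hS : Cn G S)
    (n1 : ∀ w ∈ T1, IsN w) (n2 : ∀ w ∈ T2, IsN w) (n3 : ∀ w ∈ T3, IsN w)
    (d12 : Disjoint T1 T2) (d13 : Disjoint T1 T3) (d23 : Disjoint T2 T3)
    (dS1 : Disjoint S T1) (dS2 : Disjoint S T2) (dS3 : Disjoint S T3)
    (t1 : Tch G S T1) (t2 : Tch G S T2) (t3 : Tch G S T3) (hc : c 0 ∉ S)
    (z1 : ∃ (k : ℕ) (hk : k < r + 1), z ⟨k, hk⟩ ∈ T1)
    (z2 : ∃ (k : ℕ) (hk : k < r + 1), z ⟨k, hk⟩ ∈ T2)
    (z3 : ∃ (k : ℕ) (hk : k < r + 1), z ⟨k, hk⟩ ∈ T3) : False := by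
  obtain ⟨k1, hk1, z1⟩ := z1
  obtain ⟨k2, hk2, z2⟩ := z2
  obtain ⟨k3, hk3, z3⟩ := z3
  have n12 : k1 ≠ k2 := by
    rintro rfl
    exact Set.disjoint_left.1 d12 z1 z2
  have n13 : k1 ≠ k3 := by
    rintro rfl
    exact Set.disjoint_left.1 d13 z1 z3
  have n23 : k2 ≠ k3 := by
    rintro rfl
    exact Set.disjoint_left.1 d23 z2 z3
  rcases lt_or_gt_of_ne n12 with a | a <;> rcases lt_or_gt_of_ne n13 with b | b <;>
    rcases lt_or_gt_of_ne n23 with e | e
  · exact lemY_sorted hG h1 h2 h3 hS n1 n2 n3 d12 d23 dS1 dS2 dS3 t1 t2 t3 hc z1 z2 z3 a e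
  · exact lemY_sorted hG h1 h3 h2 hS n1 n3 n2 d13 d23.symm dS1 dS3 dS2 t1 t3 t2 hc z1 z3 z2 b e
  · omega
  · exact lemY_sorted hG h3 h1 h2 hS n3 n1 n2 d13.symm d12 dS3 dS1 dS2 t3 t1 t2 hc z3 z1 z2 b a
  · exact lemY_sorted hG h2 h1 h3 hS n2 n1 n3 d12.symm d13 dS2 dS1 dS3 t2 t1 t3 hc z2 z1 z3 a b
  · omega
  · exact lemY_sorted hG h2 h3 h1 hS n2 n3 n1 d23 d13.symm dS2 dS3 dS1 t2 t3 t1 hc z2 z3 z1 e b
  · exact lemY_sorted hG h3 h2 h1 hS n3 n2 n1 d23.symm d12.symm dS3 dS2 dS1 t3 t2 t1 hc z3 z2 z1 e a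

/-- Lemma X -/
lemma lemX (hG : G ≤ host r) {P : Fin 3 → Set (HV r)} {X0 Xr : Set (HV r)}
    (hP : ∀ i, Cn G (P i)) (hN : ∀ i, ∀ w ∈ P i, IsN w) (hd : ∀ i j, i ≠ j → Disjoint (P i) (P j))
    (ht : ∀ i j, i ≠ j → Tch G (P i) (P j)) (h0 : Cn G X0) (hr : Cn G Xr)
    (c0 : c 0 ∉ X0) (cr : c 0 ∉ Xr) (z00 : z 0 ∈ X0) (z0r : z (Fin.last r) ∉ X0)
    (zr0 : z 0 ∉ Xr) (zrr : z (Fin.last r) ∈ Xr) (d0 : ∀ i, Disjoint X0 (P i))
    (dr : ∀ i, Disjoint Xr (P i)) (t0 : ∃ a b, a ≠ b ∧ Tch G X0 (P a) ∧ Tch G X0 (P b))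
    (tr : ∃ a b, a ≠ b ∧ Tch G Xr (P a) ∧ Tch G Xr (P b)) : False := by
  obtain ⟨k, hk, hz⟩ := exists_z hG (hP 0) (hP 1) (hP 2) (hd 0 1 (by decide)) (hd 0 2 (by decide))
    (hd 1 2 (by decide)) (ht 0 1 (by decide)) (ht 0 2 (by decide)) (ht 1 2 (by decide)) (by
      rintro w ((hw | hw) | hw)
      · exact hN 0 w hw
      · exact hN 1 w hw
      · exact hN 2 w hw)
  obtain ⟨a0, ha0⟩ : ∃ a0, z ⟨k, hk⟩ ∈ P a0 := by
    rcases hz with (hz | hz) | hz
    · exact ⟨0, hz⟩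
    · exact ⟨1, hz⟩
    · exact ⟨2, hz⟩
  have hX0 := below hG h0 c0 z0r z00 (Set.disjoint_right.1 (d0 a0) ha0)
  have hXr := above hG hr cr zrr zr0 (Set.disjoint_right.1 (dr a0) ha0)
  -- a part below
  obtain ⟨b, hb, hbt⟩ : ∃ b, b ≠ a0 ∧ Tch G X0 (P b) := by
    obtain ⟨x, y, hxy, hx, hy⟩ := t0
    by_cases h : x = a0
    · exact ⟨y, fun h' => hxy (h.trans h'.symm), hy⟩
    · exact ⟨x, h, hx⟩
  obtain ⟨b', hb', hbt'⟩ : ∃ b, b ≠ a0 ∧ Tch G Xr (P b) := by
    obtain ⟨x, y, hxy, hx, hy⟩ := tr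
    by_cases h : x = a0
    · exact ⟨y, fun h' => hxy (h.trans h'.symm), hy⟩
    · exact ⟨x, h, hx⟩
  have hzb : z ⟨k, hk⟩ ∉ P b := Set.disjoint_right.1 (hd b a0 hb) ha0
  have hzb' : z ⟨k, hk⟩ ∉ P b' := Set.disjoint_right.1 (hd b' a0 hb') ha0
  have low : ∀ w ∈ P b, lev w < 2 * k := by
    obtain ⟨u, hu, v, hv, huv⟩ := hbt
    have hWv := (hN b v hv).isW
    refine N_below hG (hP b) (hN b) hzb hv ?_
    have hWu : IsW u := by
      by_contra hWu
      rcases adj_W_nW (hG huv).symm hWv hWu with h3 | ⟨_, _, _, _, _, _, _, h3 | h3⟩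
      · exact c0 (h3 ▸ hu)
      · have := hN b v hv
        rw [h3] at this
        simp [IsN] at this
      · have := hN b v hv
        rw [h3] at this
        simp [IsN] at this
    have e1 := adj_lev (hG huv) hWu hWv (hX0 u hu hWu)
    have e2 := lev_ne_of_notMem hzb hv hWv
    omega
  have high : ∀ w ∈ P b', 2 * k < lev w := by
    obtain ⟨u, hu, v, hv, huv⟩ := hbt'
    have hWv := (hN b' v hv).isW
    refine N_above hG (hP b') (hN b') hzb' hv ?_
    have hWu : IsW u := by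
      by_contra hWu
      rcases adj_W_nW (hG huv).symm hWv hWu with h3 | ⟨_, _, _, _, _, _, _, h3 | h3⟩
      · exact cr (h3 ▸ hu)
      · have := hN b' v hv
        rw [h3] at this
        simp [IsN] at this
      · have := hN b' v hv
        rw [h3] at this
        simp [IsN] at this
    have e1 := adj_lev' (hG huv) hWu hWv (hXr u hu hWu)
    have e2 := lev_ne_of_notMem hzb' hv hWv
    omega
  by_cases hbb : b = b'
  · obtain ⟨w, hw⟩ := (hP b).ne
    have e1 := low w hw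
    have e2 := high w (hbb ▸ hw)
    omega
  · obtain ⟨u, hu, v, hv, huv⟩ := ht b b' hbb
    have e1 := low u hu
    have e2 := high v hv
    have e3 := adj_lev (hG huv) (hN b u hu).isW (hN b' v hv).isW e1
    omega

/-- crossing the wall from `z 0` to `z r` -/
lemma crossing (hr : 1 ≤ r) (hG : G ≤ host r) {S : Set (HV r)} (hS : Cn G S) (h0 : z 0 ∈ S)
    (hl : z (Fin.last r) ∈ S) (hκ : ∀ v, v ≠ 2 → v ≠ 3 → κ r v ∉ S) (L : HV r → Prop)
    (hL0 : L (z 0)) (hLl : ¬ L (z (Fin.last r)))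
    (hstep : ∀ u ∈ S, ∀ w ∈ S, IsW u → IsW w → G.Adj u w → L u → L w) : False := by
  have key : ∀ w ∈ S, (IsW w ∧ L w) ∨ (¬ IsW w ∧ ¬ (host r).Adj w (z (Fin.last r))) := by
    refine hS.spread h0 (Or.inl ⟨by simp [IsW], hL0⟩) ?_
    rintro u hu (⟨hWu, hLu⟩ | ⟨hWu, hnu⟩) w hw huw
    · by_cases hWw : IsW w
      · exact Or.inl ⟨hWw, hstep u hu w hw hWu hWw huw hLu⟩
      · right
        refine ⟨hWw, ?_⟩
        rcases adj_W_nW (hG huw) hWu hWw with h3 | ⟨p, q, i, h4, h5, h6, h7, h8⟩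
        · exfalso
          rw [h3, ← κ_zero (r := r)] at hw
          exact hκ 0 (by decide) (by decide) hw
        · intro hadj
          rw [h4] at hadj
          have h9 := (adj_m hadj).2.2
          have h10 : u = z 0 := by
            rcases h8 with h8 | h8
            · exact h8
            · rw [h8] at hLu; exact absurd hLu hLl
          rw [h10] at h7
          rw [← κ_two] at h7
          rw [← κ_three] at h9
          rcases h7 with h7 | h7 <;> rcases h9 with h9 | h9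
          · have e1 := κ_inj hr h7
            have e2 := κ_inj hr h9
            rw [← e1] at e2
            exact absurd e2 (by decide)
          · have e1 := κ_inj hr h7
            have e2 := κ_inj hr h9
            rw [← e1, ← e2] at h6
            exact h6 rfl
          · have e1 := κ_inj hr h7
            have e2 := κ_inj hr h9
            rw [← e1, ← e2] at h6
            exact h6 Sym2.eq_swap
          · have e1 := κ_inj hr h7
            have e2 := κ_inj hr h9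
            rw [← e1] at e2
            exact absurd e2 (by decide)
    · by_cases hWw : IsW w
      · left
        refine ⟨hWw, ?_⟩
        rcases adj_W_nW (hG huw).symm hWw hWu with h3 | ⟨p, q, i, h4, h5, h6, h7, h8 | h8⟩
        · exfalso
          rw [h3, ← κ_zero (r := r)] at hu
          exact hκ 0 (by decide) (by decide) hu
        · rw [h8]; exact hL0
        · exfalso
          rw [h8] at huw
          exact hnu (hG huw)
      · exfalso
        -- two adjacent non-wall vertices: one of them is `κ v`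
        have hk : ∀ s : HV r, s ∈ S → ∀ v, s = κ r v → IsW s := by
          intro s hs v hv
          by_cases h2 : v = 2
          · rw [hv, h2, κ_two]; simp [IsW]
          by_cases h3 : v = 3
          · rw [hv, h3, κ_three]; simp [IsW]
          · exact absurd (hv ▸ hs) (hκ v h2 h3)
        cases u with
        | c v =>
          cases w with
          | c v' => exact adj_c_c (hG huw)
          | m p q i =>
            rcases (adj_m (hG huw).symm).2.2 with h | h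
            · exact hWu (hk _ hu _ h)
            · exact hWu (hk _ hu _ h)
          | row j i => simp [IsW] at hWw
          | z k => simp [IsW] at hWw
        | m p q i =>
          rcases (adj_m (hG huw)).2.2 with h | h
          · exact hWw (hk _ hw _ h)
          · exact hWw (hk _ hw _ h)
        | row j i => simp [IsW] at hWu
        | z k => simp [IsW] at hWu
  rcases key _ hl with h | h
  · exact hLl h.2
  · exact h.1 (by simp [IsW])

lemma cn_retract {V : Type*} {G : SimpleGraph V} {S T : Set V} (hS : Cn G S) (f : V → V)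
    (hf : ∀ u ∈ S, f u ∈ T) (hid : ∀ v ∈ T, v ∈ S ∧ f v = v)
    (hstep : ∀ u ∈ S, ∀ v ∈ S, G.Adj u v → f u = f v ∨ G.Adj (f u) (f v)) : Cn G T := by
  obtain ⟨v0, hv0⟩ := hS.ne
  have key : ∀ w ∈ S, ∃ h : f w ∈ T, (G.induce T).Reachable ⟨f v0, hf v0 hv0⟩ ⟨f w, h⟩ := by
    refine hS.spread hv0 ⟨hf v0 hv0, SimpleGraph.Reachable.refl _⟩ ?_
    rintro u hu ⟨h1, h2⟩ w hw huw
    refine ⟨hf w hw, ?_⟩
    rcases hstep u hu w hw huw with h3 | h3
    · have : (⟨f w, hf w hw⟩ : T) = ⟨f u, h1⟩ := Subtype.ext h3.symm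
      rw [this]
      exact h2
    · have h4 : (G.induce T).Adj ⟨f u, h1⟩ ⟨f w, hf w hw⟩ := h3
      exact h2.trans h4.reachable
  rw [Cn, SimpleGraph.connected_iff_exists_forall_reachable]
  refine ⟨⟨f v0, hf v0 hv0⟩, ?_⟩
  rintro ⟨v, hv⟩
  obtain ⟨h1, h2⟩ := hid v hv
  obtain ⟨h3, h4⟩ := key v h1
  have : (⟨v, hv⟩ : T) = ⟨f v, h3⟩ := Subtype.ext h2.symm
  rw [this]
  exact h4

/-- the cycle through `c 0` along row `j`: three disjoint pairwise touching connected sets use all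
of it -/
lemma cyc (hr : 1 ≤ r) (hG : G ≤ host r) {p q s : Set (HV r)} (hp : Cn G p) (hq : Cn G q)
    (hs : Cn G s) (dpq : Disjoint p q) (dps : Disjoint p s) (dqs : Disjoint q s)
    (tpq : Tch G p q) (tps : Tch G p s) (tqs : Tch G q s) {j : Fin r}
    (hU : ∀ w ∈ p ∪ q ∪ s, w = c 0 ∨ ∃ i, w = row j i) (i0 : Fin (2 * r))
    (hcut : row j i0 ∉ p ∪ q ∪ s ∨ (∃ h : (i0 : ℕ) + 1 < 2 * r,
      ¬ G.Adj (row j i0) (row j ⟨i0 + 1, h⟩))) : False := by
  let φ : HV r → ℤ := fun w => match w with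
    | .row _ i => if (i0 : ℕ) < i then ((i : ℕ) : ℤ) else ((2 * r + 1 + (i : ℕ) : ℕ) : ℤ)
    | _ => ((2 * r : ℕ) : ℤ)
  have hφr : ∀ i : Fin (2 * r), φ (row j i) =
    if (i0 : ℕ) < i then ((i : ℕ) : ℤ) else ((2 * r + 1 + (i : ℕ) : ℕ) : ℤ) := fun i => rfl
  have hφc : φ (c 0) = ((2 * r : ℕ) : ℤ) := rfl
  have hcr : ∀ i : Fin (2 * r), row j i ∈ p ∪ q ∪ s → G.Adj (c 0) (row j i) →
      φ (row j i) = φ (c 0) + 1 ∨ φ (c 0) = φ (row j i) + 1 := by
    intro i hi hadj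
    rw [hφr, hφc]
    have h1 := (c_adj_row (hG hadj)).2
    rcases h1 with h1 | h1
    · left
      rw [if_neg (by omega)]
      push_cast
      omega
    · right
      have h2 : (i0 : ℕ) < i := by
        by_contra hlt
        have h3 : i0 = i := Fin.ext (by omega)
        rcases hcut with h4 | ⟨h4, h5⟩
        · exact h4 (h3 ▸ hi)
        · omega
      rw [if_pos h2]
      push_cast
      omega
  have hrr : ∀ i i' : Fin (2 * r), row j i ∈ p ∪ q ∪ s → row j i' ∈ p ∪ q ∪ s →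
      G.Adj (row j i) (row j i') → (i' : ℕ) = i + 1 → φ (row j i') = φ (row j i) + 1 := by
    intro i i' hi hi' hadj hii
    rw [hφr, hφr]
    have hne : i ≠ i0 := by
      rintro rfl
      rcases hcut with h4 | ⟨h4, h5⟩
      · exact h4 hi
      · have : i' = ⟨i + 1, h4⟩ := Fin.ext hii
        rw [this] at hadj
        exact h5 hadj
    have hne' : (i : ℕ) ≠ i0 := fun h => hne (Fin.ext h)
    by_cases h1 : (i0 : ℕ) < i
    · rw [if_pos h1, if_pos (by omega)]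
      push_cast
      omega
    · rw [if_neg h1, if_neg (by omega)]
      push_cast
      omega
  refine path3 hp hq hs dpq dps dqs tpq tps tqs (φ := φ) (U := p ∪ q ∪ s)
    (fun w hw => Or.inl (Or.inl hw)) (fun w hw => Or.inl (Or.inr hw)) (fun w hw => Or.inr hw) ?_ ?_
  · intro u hu v hv huv
    rcases hU u hu with rfl | ⟨i, rfl⟩ <;> rcases hU v hv with rfl | ⟨i', rfl⟩
    · exact absurd huv (SimpleGraph.irrefl _)
    · exact hcr i' hv huv
    · exact (hcr i hu huv.symm).symm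
    · rcases (row_adj_row (hG huv)).2 with h | h
      · exact Or.inl (hrr i i' hu hv huv h)
      · exact Or.inr (hrr i' i hv hu huv.symm h)
  · intro u hu v hv huv
    rcases hU u hu with rfl | ⟨i, rfl⟩ <;> rcases hU v hv with rfl | ⟨i', rfl⟩
    · rfl
    · exfalso
      rw [hφr, hφc] at huv
      split_ifs at huv <;> push_cast at huv <;> omega
    · exfalso
      rw [hφr, hφc] at huv
      split_ifs at huv <;> push_cast at huv <;> omega
    · rw [HV.row.injEq]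
      refine ⟨rfl, Fin.ext ?_⟩
      rw [hφr, hφr] at huv
      split_ifs at huv <;> push_cast at huv <;> omega

end Pool.Agent.Y395.EP
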