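import Mathlib
import Pool.Agent.Y395.EP.Region

set_option autoImplicit false

namespace Pool.Agent.Y395.EP

open HV

variable {r : ℕ} {G : SimpleGraph (HV r)}

lemma perm_inv_adj (σ : Equiv.Perm (Fin 21)) (h : ∀ u v, J.Adj u v → J.Adj (σ u) (σ v)) :
    ∀ u v, J.Adj u v → J.Adj (σ⁻¹ u) (σ⁻¹ v) := by
  have hpow : ∀ (n : ℕ) (u v : Fin 21), J.Adj u v → J.Adj ((σ ^ n) u) ((σ ^ n) v) := by
    intro n
    induction n with
    | zero => intro u v huv; simpa using huv
    | succ n ih =>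
      intro u v huv
      rw [pow_succ', Equiv.Perm.mul_apply, Equiv.Perm.mul_apply]
      exact h _ _ (ih u v huv)
  have hinv : σ⁻¹ = σ ^ (orderOf σ - 1) := by
    rw [inv_eq_iff_mul_eq_one, ← pow_succ', Nat.sub_add_cancel (orderOf_pos σ), pow_orderOf_eq_one]
  intro u v huv
  rw [hinv]
  exact hpow _ u v huv

lemma deg_zero : (Finset.univ.filter (fun v => J.Adj 0 v)).card = 13 := by decide +kernel
lemma deg_two : (Finset.univ.filter (fun v => J.Adj 2 v)).card = 4 := by decide +kernel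
lemma deg_three : (Finset.univ.filter (fun v => J.Adj 3 v)).card = 4 := by decide +kernel

lemma J_root {u v : Fin 21} (hu : u = 0 ∨ u = 2 ∨ u = 3) (hv : v = 0 ∨ v = 2 ∨ v = 3)
    (h : u ≠ v) : J.Adj u v := by
  rcases hu with rfl | rfl | rfl <;> rcases hv with rfl | rfl | rfl <;>
    first
      | exact absurd rfl h
      | decide

/-- the family of branch sets of the vertices of `J` -/
structure Fam (G : SimpleGraph (HV r)) (C : Fin 21 → Set (HV r)) : Prop where
  cn : ∀ v, Cn G (C v)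
  dis : ∀ u v, u ≠ v → Disjoint (C u) (C v)
  tch : ∀ u v, J.Adj u v → Tch G (C u) (C v)

/-- branch sets meeting the roots -/
def RX (C : Fin 21 → Set (HV r)) (v : Fin 21) : Prop := κ r 0 ∈ C v ∨ κ r 2 ∈ C v ∨ κ r 3 ∈ C v

/-- branch sets inside the wall -/
def RY (C : Fin 21 → Set (HV r)) (v : Fin 21) : Prop := ∀ w ∈ C v, IsN w

variable {C : Fin 21 → Set (HV r)}

lemma Fam.not_both (_ : Fam G C) (v : Fin 21) (h : RX C v) : ¬ RY C v := by
  intro hY
  rcases h with h | h | h
  · exact not_isN_κ (hY _ h)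
  · exact not_isN_κ (hY _ h)
  · exact not_isN_κ (hY _ h)

lemma Fam.outside (hG : G ≤ host r) (hF : Fam G C) (v : Fin 21) (hX : ¬ RX C v) (hY : ¬ RY C v) :
    ∀ w ∈ C v, ¬ IsN w := by
  unfold RY at hY
  push Not at hY
  obtain ⟨w0, hw0, hn0⟩ := hY
  refine (hF.cn v).spread hw0 hn0 ?_
  intro u hu hnu w hw huw hNw
  rcases adj_isN (hG huw).symm hNw with h | h | h | h
  · exact hnu h
  · exact hX (Or.inl (h ▸ hu))
  · exact hX (Or.inr (Or.inl (h ▸ hu)))
  · exact hX (Or.inr (Or.inr (h ▸ hu)))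

lemma Fam.closed (hG : G ≤ host r) (hF : Fam G C) (u v : Fin 21) (hu : RY C u)
    (huv : J.Adj u v) : RX C v ∨ RY C v := by
  by_contra hcon
  push Not at hcon
  have hout := hF.outside hG v hcon.1 hcon.2
  obtain ⟨p, hp, q, hq, hpq⟩ := hF.tch u v huv
  rcases adj_isN (hG hpq) (hu p hp) with h | h | h | h
  · exact hout q hq h
  · exact hcon.1 (Or.inl (h ▸ hq))
  · exact hcon.1 (Or.inr (Or.inl (h ▸ hq)))
  · exact hcon.1 (Or.inr (Or.inr (h ▸ hq)))

lemma Fam.ndis (hF : Fam G C) {u v : Fin 21} (h : u ≠ v) {s : HV r} (hu : s ∈ C u)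
    (hv : s ∈ C v) : False := Set.disjoint_left.1 (hF.dis u v h) hu hv

lemma Fam.eq (hF : Fam G C) {u v : Fin 21} {s : HV r} (hu : s ∈ C u)
    (hv : s ∈ C v) : u = v := by
  by_contra h
  exact hF.ndis h hu hv

lemma Fam.three (hF : Fam G C) : ∃ r1 r2 r3 : Fin 21, ∀ v, RX C v → v = r1 ∨ v = r2 ∨ v = r3 := by
  classical
  have h : ∀ s : HV r, ∃ r1 : Fin 21, ∀ v, s ∈ C v → v = r1 := by
    intro s
    by_cases hs : ∃ v, s ∈ C v
    · obtain ⟨v, hv⟩ := hs
      exact ⟨v, fun u hu => hF.eq hu hv⟩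
    · push Not at hs
      exact ⟨0, fun v hv => absurd hv (hs v)⟩
  obtain ⟨r1, h1⟩ := h (κ r 0)
  obtain ⟨r2, h2⟩ := h (κ r 2)
  obtain ⟨r3, h3⟩ := h (κ r 3)
  refine ⟨r1, r2, r3, ?_⟩
  rintro v (hv | hv | hv)
  · exact Or.inl (h1 v hv)
  · exact Or.inr (Or.inl (h2 v hv))
  · exact Or.inr (Or.inr (h3 v hv))

/-- the union of the branch sets over a set of vertices -/
def UC (C : Fin 21 → Set (HV r)) (I : Set (Fin 21)) : Set (HV r) := ⋃ v ∈ I, C v

lemma mem_UC {I : Set (Fin 21)} {w : HV r} : w ∈ UC C I ↔ ∃ v ∈ I, w ∈ C v := by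
  simp [UC]

lemma Fam.cnU (hF : Fam G C) {I : Set (Fin 21)} (hI : Cn J I) : Cn G (UC C I) :=
  hI.biUnion (fun w _ => hF.cn w) (fun w _ w' _ h => hF.tch w w' h)

lemma Fam.disU (hF : Fam G C) {I I' : Set (Fin 21)} (h : ∀ v ∈ I, v ∉ I') :
    Disjoint (UC C I) (UC C I') := by
  rw [Set.disjoint_left]
  intro w hw hw'
  rw [mem_UC] at hw hw'
  obtain ⟨v, hv, hwv⟩ := hw
  obtain ⟨v', hv', hwv'⟩ := hw'
  have := hF.eq hwv hwv'
  subst this
  exact h v hv hv'

lemma Fam.disU' (hF : Fam G C) {u : Fin 21} {I' : Set (Fin 21)} (h : u ∉ I') :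
    Disjoint (C u) (UC C I') := by
  have h1 := hF.disU (I := {u}) (I' := I') (fun v hv => by rw [Set.mem_singleton_iff.1 hv]; exact h)
  have h2 : UC C {u} = C u := by
    ext w
    rw [mem_UC]
    simp
  rwa [h2] at h1

lemma Fam.tchU (hF : Fam G C) {u v : Fin 21} {I I' : Set (Fin 21)} (h : J.Adj u v) (hu : u ∈ I)
    (hv : v ∈ I') : Tch G (UC C I) (UC C I') :=
  (hF.tch u v h).mono (fun _ hw => mem_UC.2 ⟨u, hu, hw⟩) (fun _ hw => mem_UC.2 ⟨v, hv, hw⟩)

lemma Fam.tchU' (hF : Fam G C) {u v : Fin 21} {I' : Set (Fin 21)} (h : J.Adj u v)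
    (hv : v ∈ I') : Tch G (C u) (UC C I') :=
  (hF.tch u v h).mono (Set.Subset.refl _) (fun _ hw => mem_UC.2 ⟨v, hv, hw⟩)

lemma adj_three {u v : Fin 21} (hu : 3 ≤ (u : ℕ)) (huv : (u : ℕ) / 3 = (v : ℕ) / 3)
    (hlt : (u : ℕ) < v) : J.Adj u v := by
  by_cases h : (v : ℕ) = u + 1
  · exact J_succ (by omega) h
  · exact J_succ2 (by omega) (by omega) (by omega)

/-- case F2 -/
lemma Fam.F2 (hr : 1 ≤ r) (hG : G ≤ host r) (hF : Fam G C) {i1 i2 i3 : ℕ} (h1 : 1 ≤ i1)
    (h12 : i1 < i2) (h23 : i2 < i3) (h3 : i3 ≤ 6)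
    (hY : ∀ v : Fin 21, ((v : ℕ) / 3 = i1 ∨ (v : ℕ) / 3 = i2 ∨ (v : ℕ) / 3 = i3) → RY C v) :
    False := by
  let I : ℕ → Set (Fin 21) := fun i => {v | 3 * i ≤ (v : ℕ) ∧ (v : ℕ) ≤ 3 * i + 2}
  have hI : ∀ i, 1 ≤ i → i ≤ 6 → Cn J (I i) := fun i ha hb =>
    cn_interval (by omega) (by omega) (by omega)
  have hN : ∀ i, (i = i1 ∨ i = i2 ∨ i = i3) → ∀ w ∈ UC C (I i), IsN w := by
    intro i hi w hw
    rw [mem_UC] at hw
    obtain ⟨v, hv, hwv⟩ := hw
    have hv' : 3 * i ≤ (v : ℕ) ∧ (v : ℕ) ≤ 3 * i + 2 := hv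
    have : (v : ℕ) / 3 = i := by omega
    exact hY v (by rw [this]; exact hi) w hwv
  have hdis : ∀ i i', i ≠ i' → Disjoint (UC C (I i)) (UC C (I i')) := by
    intro i i' hii
    refine hF.disU ?_
    intro v hv hv'
    have hv1 : 3 * i ≤ (v : ℕ) ∧ (v : ℕ) ≤ 3 * i + 2 := hv
    have hv2 : 3 * i' ≤ (v : ℕ) ∧ (v : ℕ) ≤ 3 * i' + 2 := hv'
    omega
  have hz : ∀ i, 1 ≤ i → i ≤ 6 → (∀ w ∈ UC C (I i), IsN w) →
      ∃ (k : ℕ) (hk : k < r + 1), z ⟨k, hk⟩ ∈ UC C (I i) := by
    intro i ha hb hNi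
    have sub : ∀ v : Fin 21, v ∈ I i → C v ⊆ UC C (I i) := fun v hv w hw => mem_UC.2 ⟨v, hv, hw⟩
    let a : Fin 21 := ⟨3 * i, by omega⟩
    let b : Fin 21 := ⟨3 * i + 1, by omega⟩
    let e : Fin 21 := ⟨3 * i + 2, by omega⟩
    have ha' : a ∈ I i := ⟨le_refl _, by simp [a]⟩
    have hb' : b ∈ I i := ⟨by simp [b], by simp [b]⟩
    have he' : e ∈ I i := ⟨by simp [e], by simp [e]⟩
    have nab : J.Adj a b := adj_three (by simp [a]; omega) (by simp [a, b]; omega) (by simp [a, b])
    have nae : J.Adj a e := adj_three (by simp [a]; omega) (by simp [a, e]; omega) (by simp [a, e])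
    have nbe : J.Adj b e := adj_three (by simp [b]; omega) (by simp [b, e]; omega) (by simp [b, e])
    obtain ⟨k, hk, hzk⟩ := exists_z hG (hF.cn a) (hF.cn b) (hF.cn e) (hF.dis _ _ nab.ne)
      (hF.dis _ _ nae.ne) (hF.dis _ _ nbe.ne) (hF.tch _ _ nab) (hF.tch _ _ nae) (hF.tch _ _ nbe)
      (by
        rintro w ((hw | hw) | hw)
        · exact hNi w (sub a ha' hw)
        · exact hNi w (sub b hb' hw)
        · exact hNi w (sub e he' hw))
    refine ⟨k, hk, ?_⟩
    rcases hzk with (hw | hw) | hw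
    · exact sub a ha' hw
    · exact sub b hb' hw
    · exact sub e he' hw
  -- the hub
  obtain ⟨b, hb, hcb⟩ : ∃ b : Fin 21, (b = 0 ∨ b = 1) ∧ c 0 ∉ C b := by
    by_cases h : c 0 ∈ C 0
    · exact ⟨1, Or.inr rfl, fun h' => hF.ndis (by decide) h h'⟩
    · exact ⟨0, Or.inl rfl, h⟩
  have htb : ∀ i, 1 ≤ i → i ≤ 6 → Tch G (C b) (UC C (I i)) := by
    intro i ha hb'
    rcases hb with rfl | rfl
    · exact hF.tchU' (v := ⟨3 * i, by omega⟩) (J_zero (by simp; omega) (by simp))
        ⟨le_refl _, by simp⟩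
    · exact hF.tchU' (v := ⟨3 * i + 1, by omega⟩) (J_one (by simp only; omega) (by simp only; omega))
        ⟨by simp, by simp⟩
  have hdb : ∀ i, 1 ≤ i → Disjoint (C b) (UC C (I i)) := by
    intro i ha
    refine hF.disU' ?_
    intro hb'
    have hb2 : 3 * i ≤ (b : ℕ) ∧ (b : ℕ) ≤ 3 * i + 2 := hb'
    rcases hb with rfl | rfl
    · have : ((0 : Fin 21) : ℕ) = 0 := rfl
      omega
    · have : ((1 : Fin 21) : ℕ) = 1 := rfl
      omega
  have n1 := hN i1 (Or.inl rfl)
  have n2 := hN i2 (Or.inr (Or.inl rfl))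
  have n3 := hN i3 (Or.inr (Or.inr rfl))
  exact lemY hG (hF.cnU (hI i1 (by omega) (by omega))) (hF.cnU (hI i2 (by omega) (by omega)))
    (hF.cnU (hI i3 (by omega) (by omega))) (hF.cn b) n1 n2 n3 (hdis _ _ (by omega))
    (hdis _ _ (by omega)) (hdis _ _ (by omega)) (hdb _ (by omega)) (hdb _ (by omega))
    (hdb _ (by omega)) (htb _ (by omega) (by omega)) (htb _ (by omega) (by omega))
    (htb _ (by omega) (by omega)) hcb (hz _ (by omega) (by omega) n1)
    (hz _ (by omega) (by omega) n2) (hz _ (by omega) (by omega) n3)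

/-- case F1, abstract version -/
lemma Fam.F1 (hG : G ≤ host r) (hF : Fam G C) {c' : Fin 21} (hc2 : 2 ≤ (c' : ℕ))
    (h0 : RX C 0) (h1 : RX C 1) (hc : RX C c') (I : Fin 3 → Set (Fin 21))
    (hI : ∀ i, Cn J (I i)) (hY : ∀ i, ∀ v ∈ I i, RY C v)
    (hdis : ∀ i j, i ≠ j → ∀ v ∈ I i, v ∉ I j)
    (ht : ∀ i j, i ≠ j → Tch J (I i) (I j))
    (htx : ∀ x, (x = 0 ∨ x = 1 ∨ x = c') → ∃ a b, a ≠ b ∧ Tch J {x} (I a) ∧ Tch J {x} (I b)) :
    False := by
  have o0 : ((0 : Fin 21) : ℕ) = 0 := rfl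
  have o1 : ((1 : Fin 21) : ℕ) = 1 := rfl
  have n01 : (0 : Fin 21) ≠ 1 := by decide
  have n0c : (0 : Fin 21) ≠ c' := by rintro rfl; omega
  have n1c : (1 : Fin 21) ≠ c' := by rintro rfl; omega
  have hXI : ∀ x, RX C x → ∀ i, x ∉ I i := fun x hx i hxi => hF.not_both x hx (hY i x hxi)
  have fin : ∀ x0 xr x' : Fin 21, x0 ≠ xr → x0 ≠ x' → xr ≠ x' → (x0 = 0 ∨ x0 = 1 ∨ x0 = c') →
      (xr = 0 ∨ xr = 1 ∨ xr = c') → κ r 2 ∈ C x0 → κ r 3 ∈ C xr → κ r 0 ∈ C x' → False := by
    intro x0 xr x' n1 n2 n3 m1 m2 k1 k2 k3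
    have m : ∀ x, (∃ a b, a ≠ b ∧ Tch J {x} (I a) ∧ Tch J {x} (I b)) →
        ∃ a b, a ≠ b ∧ Tch G (C x) (UC C (I a)) ∧ Tch G (C x) (UC C (I b)) := by
      rintro x ⟨a, b, hab, ⟨u, hu, v, hv, huv⟩, ⟨u', hu', v', hv', huv'⟩⟩
      rw [Set.mem_singleton_iff] at hu hu'
      subst hu
      subst hu'
      exact ⟨a, b, hab, hF.tchU' huv hv, hF.tchU' huv' hv'⟩
    refine lemX hG (P := fun i => UC C (I i)) (X0 := C x0) (Xr := C xr)
      (fun i => hF.cnU (hI i)) ?_ (fun i j hij => hF.disU (hdis i j hij)) ?_ (hF.cn x0) (hF.cn xr)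
      ?_ ?_ ?_ ?_ ?_ ?_ ?_ ?_ (m x0 (htx x0 m1)) (m xr (htx xr m2))
    · intro i w hw
      rw [mem_UC] at hw
      obtain ⟨v, hv, hwv⟩ := hw
      exact hY i v hv w hwv
    · intro i j hij
      obtain ⟨u, hu, v, hv, huv⟩ := ht i j hij
      exact hF.tchU huv hu hv
    · rw [← κ_zero (r := r)]; exact fun h => hF.ndis n2 h k3
    · rw [← κ_zero (r := r)]; exact fun h => hF.ndis n3 h k3
    · rw [← κ_two (r := r)]; exact k1
    · rw [← κ_three (r := r)]; exact fun h => hF.ndis n1 h k2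
    · rw [← κ_two (r := r)]; exact fun h => hF.ndis n1 k1 h
    · rw [← κ_three (r := r)]; exact k2
    · intro i
      exact hF.disU' (hXI x0 (Or.inr (Or.inl k1)) i)
    · intro i
      exact hF.disU' (hXI xr (Or.inr (Or.inr k2)) i)
  have t0 : (0 : Fin 21) = 0 ∨ (0 : Fin 21) = 1 ∨ (0 : Fin 21) = c' := Or.inl rfl
  have t1 : (1 : Fin 21) = 0 ∨ (1 : Fin 21) = 1 ∨ (1 : Fin 21) = c' := Or.inr (Or.inl rfl)
  have t2 : c' = 0 ∨ c' = 1 ∨ c' = c' := Or.inr (Or.inr rfl)
  rcases h0 with a | a | a <;> rcases h1 with b | b | b <;> rcases hc with d | d | d <;>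
    first
      | exact hF.ndis n01 a b
      | exact hF.ndis n0c a d
      | exact hF.ndis n1c b d
      | exact fin 0 1 c' n01 n0c n1c t0 t1 a b d
      | exact fin 0 c' 1 n0c n01 n1c.symm t0 t2 a d b
      | exact fin 1 0 c' n01.symm n1c n0c t1 t0 b a d
      | exact fin 1 c' 0 n1c n01.symm n0c.symm t1 t2 b d a
      | exact fin c' 0 1 n0c.symm n1c.symm n01 t2 t0 d a b
      | exact fin c' 1 0 n1c.symm n0c.symm n01.symm t2 t1 d b a

/-- no branch set lies inside the wall -/
lemma Fam.noY (hr : 1 ≤ r) (hG : G ≤ host r) (hF : Fam G C) : ¬ ∃ v, RY C v := by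
  intro hne
  rcases claimF (fun u v hu huv => hF.closed hG u v hu huv) (fun v hv => hF.not_both v hv)
    hF.three hne with ⟨i1, i2, i3, h1, h12, h23, h3, hY⟩ | ⟨c', h0, h1, hc, h5, h17, hm, hX, hlu⟩
  · exact hF.F2 hr hG h1 h12 h23 h3 hY
  · rcases hlu with hl | hu
    · -- lower part
      let a0 : Fin 21 := ⟨c' - 3, by omega⟩
      let a1 : Fin 21 := ⟨c' - 2, by omega⟩
      let a2 : Fin 21 := ⟨c' - 1, by omega⟩
      let I : Fin 3 → Set (Fin 21) := ![{v | 2 ≤ (v : ℕ) ∧ (v : ℕ) ≤ c' - 3}, {a1}, {a2}]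
      have m0 : a0 ∈ I 0 := ⟨by simp only [a0]; omega, by simp only [a0]; omega⟩
      have m1 : a1 ∈ I 1 := rfl
      have m2 : a2 ∈ I 2 := rfl
      have e0 : (a0 : ℕ) = c' - 3 := rfl
      have e1 : (a1 : ℕ) = c' - 2 := rfl
      have e2 : (a2 : ℕ) = c' - 1 := rfl
      have j01 : J.Adj a0 a1 := J_succ (by omega) (by omega)
      have j02 : J.Adj a0 a2 := J_succ2 (by omega) (by omega) (by omega)
      have j12 : J.Adj a1 a2 := J_succ (by omega) (by omega)
      refine hF.F1 hG (c' := c') (by omega) h0 h1 hc I ?_ ?_ ?_ ?_ ?_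
      · intro i
        fin_cases i
        · exact cn_interval (le_refl _) (by omega) (by omega)
        · exact cn_singleton _
        · exact cn_singleton _
      · intro i v hv
        fin_cases i
        · have hv' : 2 ≤ (v : ℕ) ∧ (v : ℕ) ≤ c' - 3 := hv
          exact hl v (by omega) (by omega)
        · have hv' : v = a1 := hv
          exact hl v (by rw [hv']; omega) (by rw [hv']; omega)
        · have hv' : v = a2 := hv
          exact hl v (by rw [hv']; omega) (by rw [hv']; omega)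
      · have q0 : ∀ v ∈ I 0, v ∉ I 1 ∧ v ∉ I 2 := by
          intro v hv
          have hv' : 2 ≤ (v : ℕ) ∧ (v : ℕ) ≤ c' - 3 := hv
          constructor
          · intro h
            have h' : v = a1 := h
            rw [h'] at hv'
            omega
          · intro h
            have h' : v = a2 := h
            rw [h'] at hv'
            omega
        have q1 : ∀ v ∈ I 1, v ∉ I 2 := by
          intro v hv h
          have h1 : v = a1 := hv
          have h2 : v = a2 := h
          have h3 := congrArg Fin.val (h1.symm.trans h2)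
          omega
        intro i j hij v hv hv'
        fin_cases i <;> fin_cases j
        · exact hij rfl
        · exact (q0 v hv).1 hv'
        · exact (q0 v hv).2 hv'
        · exact (q0 v hv').1 hv
        · exact hij rfl
        · exact q1 v hv hv'
        · exact (q0 v hv').2 hv
        · exact q1 v hv' hv
        · exact hij rfl
      · have t01 : Tch J (I 0) (I 1) := ⟨a0, m0, a1, m1, j01⟩
        have t02 : Tch J (I 0) (I 2) := ⟨a0, m0, a2, m2, j02⟩
        have t12 : Tch J (I 1) (I 2) := ⟨a1, m1, a2, m2, j12⟩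
        intro i j hij
        fin_cases i <;> fin_cases j
        · exact absurd rfl hij
        · exact t01
        · exact t02
        · exact t01.symm
        · exact absurd rfl hij
        · exact t12
        · exact t02.symm
        · exact t12.symm
        · exact absurd rfl hij
      · rintro x (rfl | rfl | rfl)
        · exact ⟨0, 1, by decide, ⟨0, rfl, a0, m0, J_zero (by omega) (by omega)⟩,
            ⟨0, rfl, a1, m1, J_zero (by omega) (by omega)⟩⟩
        · exact ⟨0, 2, by decide, ⟨1, rfl, a0, m0, J_one (by omega) (by omega)⟩,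
            ⟨1, rfl, a2, m2, J_one (by omega) (by omega)⟩⟩
        · exact ⟨1, 2, by decide, ⟨x, rfl, a1, m1, (J_succ2 (by omega) (by omega) (by omega)).symm⟩,
            ⟨x, rfl, a2, m2, (J_succ (by omega) (by omega)).symm⟩⟩
    · -- upper part
      let a0 : Fin 21 := ⟨c' + 3, by omega⟩
      let a1 : Fin 21 := ⟨c' + 1, by omega⟩
      let a2 : Fin 21 := ⟨c' + 2, by omega⟩
      let I : Fin 3 → Set (Fin 21) := ![{v | c' + 3 ≤ (v : ℕ) ∧ (v : ℕ) ≤ 20}, {a1}, {a2}]
      have m0 : a0 ∈ I 0 := ⟨by simp only [a0]; omega, by simp only [a0]; omega⟩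
      have m1 : a1 ∈ I 1 := rfl
      have m2 : a2 ∈ I 2 := rfl
      have e0 : (a0 : ℕ) = c' + 3 := rfl
      have e1 : (a1 : ℕ) = c' + 1 := rfl
      have e2 : (a2 : ℕ) = c' + 2 := rfl
      have j01 : J.Adj a0 a1 := (J_succ2 (by omega) (by omega) (by omega)).symm
      have j02 : J.Adj a0 a2 := (J_succ (by omega) (by omega)).symm
      have j12 : J.Adj a1 a2 := J_succ (by omega) (by omega)
      refine hF.F1 hG (c' := c') (by omega) h0 h1 hc I ?_ ?_ ?_ ?_ ?_
      · intro i
        fin_cases i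
        · exact cn_interval (by omega) (by omega) (by omega)
        · exact cn_singleton _
        · exact cn_singleton _
      · intro i v hv
        fin_cases i
        · have hv' : c' + 3 ≤ (v : ℕ) ∧ (v : ℕ) ≤ 20 := hv
          exact hu v (by omega)
        · have hv' : v = a1 := hv
          exact hu v (by rw [hv']; omega)
        · have hv' : v = a2 := hv
          exact hu v (by rw [hv']; omega)
      · have q0 : ∀ v ∈ I 0, v ∉ I 1 ∧ v ∉ I 2 := by
          intro v hv
          have hv' : c' + 3 ≤ (v : ℕ) ∧ (v : ℕ) ≤ 20 := hv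
          constructor
          · intro h
            have h' : v = a1 := h
            rw [h'] at hv'
            omega
          · intro h
            have h' : v = a2 := h
            rw [h'] at hv'
            omega
        have q1 : ∀ v ∈ I 1, v ∉ I 2 := by
          intro v hv h
          have h1 : v = a1 := hv
          have h2 : v = a2 := h
          have h3 := congrArg Fin.val (h1.symm.trans h2)
          omega
        intro i j hij v hv hv'
        fin_cases i <;> fin_cases j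
        · exact hij rfl
        · exact (q0 v hv).1 hv'
        · exact (q0 v hv).2 hv'
        · exact (q0 v hv').1 hv
        · exact hij rfl
        · exact q1 v hv hv'
        · exact (q0 v hv').2 hv
        · exact q1 v hv' hv
        · exact hij rfl
      · have t01 : Tch J (I 0) (I 1) := ⟨a0, m0, a1, m1, j01⟩
        have t02 : Tch J (I 0) (I 2) := ⟨a0, m0, a2, m2, j02⟩
        have t12 : Tch J (I 1) (I 2) := ⟨a1, m1, a2, m2, j12⟩
        intro i j hij
        fin_cases i <;> fin_cases j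
        · exact absurd rfl hij
        · exact t01
        · exact t02
        · exact t01.symm
        · exact absurd rfl hij
        · exact t12
        · exact t02.symm
        · exact t12.symm
        · exact absurd rfl hij
      · rintro x (rfl | rfl | rfl)
        · exact ⟨0, 1, by decide, ⟨0, rfl, a0, m0, J_zero (by omega) (by omega)⟩,
            ⟨0, rfl, a1, m1, J_zero (by omega) (by omega)⟩⟩
        · exact ⟨0, 2, by decide, ⟨1, rfl, a0, m0, J_one (by omega) (by omega)⟩,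
            ⟨1, rfl, a2, m2, J_one (by omega) (by omega)⟩⟩
        · exact ⟨1, 2, by decide, ⟨x, rfl, a1, m1, J_succ (by omega) (by omega)⟩,
            ⟨x, rfl, a2, m2, J_succ2 (by omega) (by omega) (by omega)⟩⟩

/-- every branch set of a vertex of `J` contains one of the vertices `κ s` -/
lemma Fam.exists_κ (hr : 1 ≤ r) (hG : G ≤ host r) (hF : Fam G C) (v : Fin 21) :
    ∃ s, κ r s ∈ C v := by
  by_cases hX : RX C v
  · rcases hX with h | h | h
    · exact ⟨_, h⟩
    · exact ⟨_, h⟩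
    · exact ⟨_, h⟩
  have hout := hF.outside hG v hX (fun h => hF.noY hr hG ⟨v, h⟩)
  by_contra hcon
  push Not at hcon
  obtain ⟨w0, hw0⟩ := (hF.cn v).ne
  rcases trichotomy w0 with h | ⟨s, h⟩ | ⟨p, q, hpq⟩
  · exact hout w0 hw0 h
  · exact hcon s (h ▸ hw0)
  · have hsing : ∀ w ∈ C v, w = w0 := by
      refine (hF.cn v).spread hw0 rfl ?_
      rintro u hu rfl w hw huw
      rcases hpq w (hG huw) with h | h
      · exact absurd (h ▸ hw) (hcon p)
      · exact absurd (h ▸ hw) (hcon q)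
    have hnb : ∀ a, J.Adj v a → κ r p ∈ C a ∨ κ r q ∈ C a := by
      intro a hva
      obtain ⟨u, hu, w, hw, huw⟩ := hF.tch v a hva
      have := hsing u hu
      subst this
      rcases hpq w (hG huw) with h | h
      · exact Or.inl (h ▸ hw)
      · exact Or.inr (h ▸ hw)
    obtain ⟨a, b, e, hab, hae, hbe, ha, hb, he⟩ := J_three v
    rcases hnb a ha with x | x <;> rcases hnb b hb with y | y <;> rcases hnb e he with t | t <;>
      first
        | exact hF.ndis hab x y
        | exact hF.ndis hae x t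
        | exact hF.ndis hbe y t

/-- the structure of branch sets -/
lemma Fam.shape (hr : 1 ≤ r) (hG : G ≤ host r) (hF : Fam G C) {σ : Fin 21 → Fin 21}
    (hσ : ∀ v, κ r (σ v) ∈ C v) (huniq : ∀ v s, κ r s ∈ C v → s = σ v) (v : Fin 21) :
    ∀ p ∈ C v, p = κ r (σ v) ∨ (∃ a b i, p = m a b i ∧ J.Adj a b ∧ (σ v = a ∨ σ v = b)) ∨
      (IsN p ∧ (σ v = 0 ∨ σ v = 2 ∨ σ v = 3)) := by
  refine (hF.cn v).spread (hσ v) (Or.inl rfl) ?_
  rintro u hu hPu w hw huw
  -- when `w` is some `κ s` there is nothing to show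
  by_cases hwκ : ∃ s, w = κ r s
  · obtain ⟨s, rfl⟩ := hwκ
    exact Or.inl (by rw [huniq v s hw])
  rcases hPu with h | ⟨a, b, i, h, hab, hs⟩ | ⟨h, hs⟩
  · -- `u = κ (σ v)`
    subst h
    right
    by_cases hN : IsN w
    · right
      refine ⟨hN, ?_⟩
      rcases adj_isN (hG huw).symm hN with h1 | h1 | h1 | h1
      · exact absurd h1 not_isN_κ
      · exact Or.inl (κ_inj hr h1)
      · exact Or.inr (Or.inl (κ_inj hr h1))
      · exact Or.inr (Or.inr (κ_inj hr h1))
    · left
      cases w with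
      | c s =>
        exfalso
        -- `c s` is `κ s` or isolated
        rcases trichotomy (c s : HV r) with h1 | ⟨t, h1⟩ | ⟨p, q, h1⟩
        · simp [IsN] at h1
        · exact hwκ ⟨t, h1⟩
        · by_cases h2 : s = 2
          · subst h2
            have h3 := hG huw
            rw [host_adj] at h3
            rcases h3.2 with h4 | h4
            · revert h4
              unfold κ
              split_ifs <;> simp [HV.rel]
            · simp only [HV.rel] at h4
              revert h4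
              unfold κ
              split_ifs <;> simp
          · by_cases h3 : s = 3
            · subst h3
              have h3 := hG huw
              rw [host_adj] at h3
              rcases h3.2 with h4 | h4
              · revert h4
                unfold κ
                split_ifs <;> simp [HV.rel]
              · simp only [HV.rel] at h4
                revert h4
                unfold κ
                split_ifs <;> simp
            · exact hwκ ⟨s, (κ_c h2 h3).symm⟩
      | m a b i =>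
        obtain ⟨h1, h2, h3⟩ := adj_m (hG huw).symm
        refine ⟨a, b, i, rfl, h1, ?_⟩
        rcases h3 with h3 | h3
        · exact Or.inl (κ_inj hr h3)
        · exact Or.inr (κ_inj hr h3)
      | row j i => simp [IsN] at hN
      | z k =>
        exfalso
        rcases trichotomy (z k : HV r) with h1 | ⟨t, h1⟩ | ⟨p, q, h1⟩
        · exact hN h1
        · exact hwκ ⟨t, h1⟩
        · by_cases h0 : (k : ℕ) = 0
          · exact hwκ ⟨2, by rw [κ_two, HV.z.injEq]; exact Fin.ext h0⟩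
          · by_cases h2 : (k : ℕ) = r
            · exact hwκ ⟨3, by rw [κ_three, HV.z.injEq]; exact Fin.ext h2⟩
            · exact hN (by simp only [IsN]; omega)
  · exfalso
    subst h
    rcases (adj_m (hG huw)).2.2 with h1 | h1
    · exact hwκ ⟨_, h1⟩
    · exact hwκ ⟨_, h1⟩
  · rcases adj_isN (hG huw) h with h1 | h1 | h1 | h1
    · exact Or.inr (Or.inr ⟨h1, hs⟩)
    · exact absurd ⟨_, h1⟩ hwκ
    · exact absurd ⟨_, h1⟩ hwκ
    · exact absurd ⟨_, h1⟩ hwκ

lemma κ_adj_κ (hr : 1 ≤ r) {s t : Fin 21} (h : (host r).Adj (κ r s) (κ r t)) :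
    (s = 0 ∨ s = 2 ∨ s = 3) ∧ (t = 0 ∨ t = 2 ∨ t = 3) := by
  by_cases hs2 : s = 2
  · by_cases ht2 : t = 2
    · simp [hs2, ht2]
    · by_cases ht3 : t = 3
      · simp [hs2, ht3]
      · exfalso
        rw [hs2, κ_two, κ_c ht2 ht3, host_adj] at h
        simp [HV.rel] at h
  · by_cases hs3 : s = 3
    · by_cases ht2 : t = 2
      · simp [hs3, ht2]
      · by_cases ht3 : t = 3
        · simp [hs3, ht3]
        · exfalso
          rw [hs3, κ_three, κ_c ht2 ht3, host_adj] at h
          simp [HV.rel] at h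
    · by_cases ht2 : t = 2
      · exfalso
        rw [ht2, κ_two, κ_c hs2 hs3, host_adj] at h
        simp [HV.rel] at h
      · by_cases ht3 : t = 3
        · exfalso
          rw [ht3, κ_three, κ_c hs2 hs3, host_adj] at h
          simp [HV.rel] at h
        · exfalso
          rw [κ_c hs2 hs3, κ_c ht2 ht3] at h
          exact adj_c_c h

/-- the bijection preserves adjacency -/
lemma Fam.hom (hr : 1 ≤ r) (hG : G ≤ host r) (hF : Fam G C) {σ : Fin 21 → Fin 21}
    (hσ : ∀ v, κ r (σ v) ∈ C v) (huniq : ∀ v s, κ r s ∈ C v → s = σ v) (u v : Fin 21)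
    (huv : J.Adj u v) : J.Adj (σ u) (σ v) := by
  have hne : σ u ≠ σ v := by
    intro h
    have h1 := hσ u
    rw [h] at h1
    exact huv.ne (hF.eq h1 (hσ v))
  obtain ⟨p, hp, q, hq, hpq⟩ := hF.tch u v huv
  have hadj := hG hpq
  rcases hF.shape hr hG hσ huniq u p hp with h | ⟨a, b, i, h, hab, hs⟩ | ⟨h, hs⟩ <;>
  rcases hF.shape hr hG hσ huniq v q hq with h' | ⟨a', b', i', h', hab', hs'⟩ | ⟨h', hs'⟩
  · rw [h, h'] at hadj
    have := κ_adj_κ hr hadj
    exact J_root this.1 this.2 hne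
  · rw [h, h'] at hadj
    have h3 := (adj_m hadj.symm).2.2
    have h4 : σ u = a' ∨ σ u = b' := by
      rcases h3 with h3 | h3
      · exact Or.inl (κ_inj hr h3)
      · exact Or.inr (κ_inj hr h3)
    rcases h4 with h4 | h4 <;> rcases hs' with h5 | h5
    · exact absurd (h4.trans h5.symm) hne
    · rw [h4, h5]; exact hab'
    · rw [h4, h5]; exact hab'.symm
    · exact absurd (h4.trans h5.symm) hne
  · rcases adj_isN hadj.symm h' with h1 | h1 | h1 | h1
    · rw [h] at h1; exact absurd h1 not_isN_κ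
    · rw [h] at h1; exact J_root (Or.inl (κ_inj hr h1)) hs' hne
    · rw [h] at h1; exact J_root (Or.inr (Or.inl (κ_inj hr h1))) hs' hne
    · rw [h] at h1; exact J_root (Or.inr (Or.inr (κ_inj hr h1))) hs' hne
  · rw [h, h'] at hadj
    have h3 := (adj_m hadj).2.2
    have h4 : σ v = a ∨ σ v = b := by
      rcases h3 with h3 | h3
      · exact Or.inl (κ_inj hr h3)
      · exact Or.inr (κ_inj hr h3)
    rcases h4 with h4 | h4 <;> rcases hs with h5 | h5
    · exact absurd (h5.trans h4.symm) hne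
    · rw [h4, h5]; exact hab.symm
    · rw [h4, h5]; exact hab
    · exact absurd (h5.trans h4.symm) hne
  · exfalso
    rw [h, h'] at hadj
    rcases (adj_m hadj).2.2 with h3 | h3
    · exact κ_ne_m h3.symm
    · exact κ_ne_m h3.symm
  · exfalso
    rw [h] at hadj
    rcases (adj_m hadj).2.2 with h3 | h3
    · rw [h3] at h'; exact not_isN_κ h'
    · rw [h3] at h'; exact not_isN_κ h'
  · rcases adj_isN hadj h with h1 | h1 | h1 | h1
    · rw [h'] at h1; exact absurd h1 not_isN_κ
    · rw [h'] at h1; exact J_root hs (Or.inl (κ_inj hr h1)) hne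
    · rw [h'] at h1; exact J_root hs (Or.inr (Or.inl (κ_inj hr h1))) hne
    · rw [h'] at h1; exact J_root hs (Or.inr (Or.inr (κ_inj hr h1))) hne
  · exfalso
    rw [h'] at hadj
    rcases (adj_m hadj.symm).2.2 with h3 | h3
    · rw [h3] at h; exact not_isN_κ h
    · rw [h3] at h; exact not_isN_κ h
  · exact J_root hs hs' hne

end Pool.Agent.Y395.EP
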