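import Mathlib
import Pool.Agent.Y395.EP.Main

set_option autoImplicit false

namespace Pool.Agent.Y395.EP

open HV

variable {r : ℕ} {G : SimpleGraph (HV r)}

/-- a common branch-set family with a pendant triangle uses a full row and an edge `z j — z (j+1)`,
and for each `j` one of these edges -/
theorem star_aux (hr : 1 ≤ r) (hG : G ≤ host r) {C : Fin 21 → Set (HV r)} (hF : Fam G C)
    {t1 t2 : Set (HV r)} (c1 : Cn G t1) (c2 : Cn G t2) (d1 : ∀ v, Disjoint (C v) t1)
    (d2 : ∀ v, Disjoint (C v) t2) (d12 : Disjoint t1 t2) (a1 : Tch G (C 0) t1)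
    (a2 : Tch G (C 0) t2) (a12 : Tch G t1 t2) :
    (∃ j : Fin r, (∀ i i' : Fin (2 * r), (i' : ℕ) = i + 1 → G.Adj (row j i) (row j i')) ∧
      G.Adj (z j.castSucc) (z j.succ)) ∧
    ∀ j : Fin r, G.Adj (z j.castSucc) (z j.succ) ∨
      ∃ i i' : Fin (2 * r), (i' : ℕ) = i + 1 ∧ G.Adj (row j i) (row j i') := by
  classical
  choose σ hσ using hF.exists_κ hr hG
  have hinj : Function.Injective σ := by
    intro u v huv
    have h1 := hσ u
    rw [huv] at h1
    exact hF.eq h1 (hσ v)
  have hsurj : Function.Surjective σ := Finite.injective_iff_surjective.1 hinj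
  have huniq : ∀ v s, κ r s ∈ C v → s = σ v := by
    intro v s hs
    obtain ⟨u, rfl⟩ := hsurj s
    rw [hF.eq hs (hσ u)]
  have hhom := hF.hom hr hG hσ huniq
  let π : Equiv.Perm (Fin 21) := Equiv.ofBijective σ ⟨hinj, hsurj⟩
  have hπ : ∀ v, π v = σ v := fun v => rfl
  have hinv := perm_inv_adj π hhom
  -- `t1`, `t2` contain no `κ`
  have ht1 : ∀ s, κ r s ∉ t1 := by
    intro s hs
    obtain ⟨u, rfl⟩ := hsurj s
    exact Set.disjoint_left.1 (d1 u) (hσ u) hs
  have ht2 : ∀ s, κ r s ∉ t2 := by
    intro s hs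
    obtain ⟨u, rfl⟩ := hsurj s
    exact Set.disjoint_left.1 (d2 u) (hσ u) hs
  have hTc : Cn G (t1 ∪ t2) := c1.union_adj c2 a12
  have hTκ : ∀ s, κ r s ∉ t1 ∪ t2 := by
    rintro s (h | h)
    · exact ht1 s h
    · exact ht2 s h
  have hTN : ∀ w ∈ t1 ∪ t2, IsN w := by
    obtain ⟨u, hu, v, hv, huv⟩ := a12
    have huN : IsN u := by
      rcases trichotomy u with h | ⟨s, h⟩ | ⟨p, q, hpq⟩
      · exact h
      · exact absurd (h ▸ hu) (ht1 s)
      · rcases hpq v (hG huv) with h | h
        · exact absurd (h ▸ hv) (ht2 p)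
        · exact absurd (h ▸ hv) (ht2 q)
    refine hTc.spread (Or.inl hu) huN ?_
    intro x hx hxN y hy hxy
    rcases adj_isN (hG hxy) hxN with h | h | h | h
    · exact h
    · exact absurd (h ▸ hy) (hTκ 0)
    · exact absurd (h ▸ hy) (hTκ 2)
    · exact absurd (h ▸ hy) (hTκ 3)
  -- `σ 0 = 0`
  have hσ0 : σ 0 = 0 := by
    have h1 : σ 0 = 0 ∨ σ 0 = 2 ∨ σ 0 = 3 := by
      obtain ⟨u, hu, v, hv, huv⟩ := a1
      have hvN := hTN v (Or.inl hv)
      rcases adj_isN (hG huv).symm hvN with h | h | h | h
      · rcases hF.shape hr hG hσ huniq 0 u hu with h1 | ⟨a, b, i, h1, _⟩ | h1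
        · rw [h1] at h; exact absurd h not_isN_κ
        · rw [h1] at h; simp [IsN] at h
        · exact h1.2
      · exact Or.inl (huniq 0 0 (h ▸ hu)).symm
      · exact Or.inr (Or.inl (huniq 0 2 (h ▸ hu)).symm)
      · exact Or.inr (Or.inr (huniq 0 3 (h ▸ hu)).symm)
    have h2 : (Finset.univ.filter (fun v => J.Adj 0 v)).card ≤
        (Finset.univ.filter (fun v => J.Adj (σ 0) v)).card := by
      refine Finset.card_le_card_of_injOn σ ?_ (hinj.injOn)
      intro v hv
      simp only [Finset.coe_filter, Finset.mem_univ, true_and] at hv ⊢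
      exact hhom 0 v hv
    rw [deg_zero] at h2
    rcases h1 with h | h | h
    · exact h
    · rw [h, deg_two] at h2; omega
    · rw [h, deg_three] at h2; omega
  -- the branch sets of the two ends
  set vx := π⁻¹ 2 with hvx
  set vy := π⁻¹ 3 with hvy
  have hσx : σ vx = 2 := by rw [← hπ, hvx]; exact π.apply_symm_apply 2
  have hσy : σ vy = 3 := by rw [← hπ, hvy]; exact π.apply_symm_apply 3
  have hadj : J.Adj vx vy := hinv 2 3 (by decide)
  have hx0 : vx ≠ 0 := by
    intro h
    rw [h, hσ0] at hσx
    exact absurd hσx (by decide)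
  have hy0 : vy ≠ 0 := by
    intro h
    rw [h, hσ0] at hσy
    exact absurd hσy (by decide)
  set S := C vx ∪ C vy with hS
  have hSc : Cn G S := (hF.cn vx).union_adj (hF.cn vy) (hF.tch _ _ hadj)
  have hS0 : z 0 ∈ S := by
    left
    have := hσ vx
    rwa [hσx, κ_two] at this
  have hSl : z (Fin.last r) ∈ S := by
    right
    have := hσ vy
    rwa [hσy, κ_three] at this
  have hSκ : ∀ v, v ≠ 2 → v ≠ 3 → κ r v ∉ S := by
    rintro v h2 h3 (h | h)
    · exact h2 ((huniq _ _ h).trans hσx)
    · exact h3 ((huniq _ _ h).trans hσy)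
  have hdS0 : ∀ w ∈ C 0, w ∉ S := by
    rintro w hw (h | h)
    · exact hF.ndis hx0 h hw
    · exact hF.ndis hy0 h hw
  have hdST : ∀ w ∈ t1 ∪ t2, w ∉ S := by
    rintro w (hw | hw) (h | h)
    · exact Set.disjoint_left.1 (d1 _) h hw
    · exact Set.disjoint_left.1 (d1 _) h hw
    · exact Set.disjoint_left.1 (d2 _) h hw
    · exact Set.disjoint_left.1 (d2 _) h hw
  have hallz : ∀ k : Fin (r + 1), z k ∈ S := by
    intro k
    by_contra hk
    have hk0 : (k : ℕ) ≠ 0 := by
      intro h
      have : k = 0 := Fin.ext h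
      rw [this] at hk
      exact hk hS0
    refine crossing hr hG hSc hS0 hSl hSκ (fun w => lev w < 2 * (k : ℕ)) ?_ ?_ ?_
    · simp only [lev]
      rw [Fin.val_zero]
      omega
    · simp only [lev, Fin.val_last]
      omega
    · intro u hu w hw hWu hWw huw hlu
      have e1 := adj_lev (hG huw) hWu hWw hlu
      have e2 := lev_ne_of_notMem (k := k) (hk := k.2) hk hw hWw
      omega
  -- `t1 ∪ t2` lies in a row
  have hrow0 : ∀ w ∈ t1 ∪ t2, ∃ j i, w = row j i := by
    intro w hw
    have h1 := hTN w hw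
    have h2 := hdST w hw
    cases w with
    | c v => simp [IsN] at h1
    | m u v i => simp [IsN] at h1
    | row j i => exact ⟨j, i, rfl⟩
    | z k => exact absurd (hallz k) h2
  obtain ⟨w0, hw0⟩ := hTc.ne
  obtain ⟨j, i0, hji⟩ := hrow0 w0 hw0
  have hrow : ∀ w ∈ t1 ∪ t2, ∃ i, w = row j i := by
    refine hTc.spread hw0 ⟨i0, hji⟩ ?_
    rintro u hu ⟨i, rfl⟩ w hw huw
    obtain ⟨j', i', rfl⟩ := hrow0 w hw
    have := (row_adj_row (hG huw)).1
    subst this
    exact ⟨i', rfl⟩
  -- neighbours of the row inside `C 0`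
  have nb : ∀ u ∈ C 0, ∀ i, G.Adj u (row j i) → u = c 0 ∨ ∃ i', u = row j i' := by
    intro u hu i huw
    have hadj := hG huw
    by_cases hWu : IsW u
    · cases u with
      | c v => simp [IsW] at hWu
      | m u v i => simp [IsW] at hWu
      | row j' i' =>
        right
        have := (row_adj_row hadj).1
        subst this
        exact ⟨i', rfl⟩
      | z k => exact absurd (hallz k) (hdS0 _ hu)
    · rcases adj_W_nW hadj.symm (by simp [IsW]) hWu with h | ⟨_, _, _, _, _, _, _, h | h⟩
      · exact Or.inl h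
      · exact absurd h (by simp)
      · exact absurd h (by simp)
  have hc0 : c 0 ∈ C 0 := by
    have := hσ 0
    rwa [hσ0, κ_zero] at this
  set TA : Set (HV r) := {w | w = c 0 ∨ (w ∈ C 0 ∧ ∃ i, w = row j i)} with hTA
  have hTAC : ∀ w ∈ TA, w ∈ C 0 := by
    rintro w (h | h)
    · rw [h]; exact hc0
    · exact h.1
  have hTAcn : Cn G TA := by
    refine cn_retract (hF.cn 0) (fun w => if ∃ i, w = row j i then w else c 0) ?_ ?_ ?_
    · intro u hu
      split_ifs with h
      · exact Or.inr ⟨hu, h⟩
      · exact Or.inl rfl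
    · intro v hv
      refine ⟨hTAC v hv, ?_⟩
      split_ifs with h
      · rfl
      · rcases hv with hv | hv
        · exact hv.symm
        · exact absurd hv.2 h
    · intro u hu v hv huv
      split_ifs with h1 h2 h2
      · exact Or.inr huv
      · obtain ⟨i, hi⟩ := h1
        rw [hi] at huv
        rcases nb v hv i huv.symm with h3 | h3
        · right
          rw [h3] at huv
          rw [hi]
          exact huv
        · exact absurd h3 h2
      · obtain ⟨i, hi⟩ := h2
        rw [hi] at huv
        rcases nb u hu i huv with h3 | h3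
        · right
          rw [h3] at huv
          rw [hi]
          exact huv
        · exact absurd h3 h1
      · exact Or.inl rfl
  have tA1 : Tch G TA t1 := by
    obtain ⟨u, hu, v, hv, huv⟩ := a1
    obtain ⟨i, hi⟩ := hrow v (Or.inl hv)
    rw [hi] at huv
    rcases nb u hu i huv with h | h
    · exact ⟨u, Or.inl h, v, hv, hi ▸ huv⟩
    · exact ⟨u, Or.inr ⟨hu, h⟩, v, hv, hi ▸ huv⟩
  have tA2 : Tch G TA t2 := by
    obtain ⟨u, hu, v, hv, huv⟩ := a2
    obtain ⟨i, hi⟩ := hrow v (Or.inr hv)
    rw [hi] at huv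
    rcases nb u hu i huv with h | h
    · exact ⟨u, Or.inl h, v, hv, hi ▸ huv⟩
    · exact ⟨u, Or.inr ⟨hu, h⟩, v, hv, hi ▸ huv⟩
  have dA1 : Disjoint TA t1 := Set.disjoint_left.2 fun w hw hw' =>
    Set.disjoint_left.1 (d1 0) (hTAC w hw) hw'
  have dA2 : Disjoint TA t2 := Set.disjoint_left.2 fun w hw hw' =>
    Set.disjoint_left.1 (d2 0) (hTAC w hw) hw'
  have hU : ∀ w ∈ TA ∪ t1 ∪ t2, w = c 0 ∨ ∃ i, w = row j i := by
    rintro w ((h | h) | h)
    · rcases h with h | h
      · exact Or.inl h
      · exact Or.inr h.2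
    · exact Or.inr (hrow w (Or.inl h))
    · exact Or.inr (hrow w (Or.inr h))
  have hcyc : ∀ i0 : Fin (2 * r), ¬ (row j i0 ∉ TA ∪ t1 ∪ t2 ∨ (∃ h : (i0 : ℕ) + 1 < 2 * r,
      ¬ G.Adj (row j i0) (row j ⟨i0 + 1, h⟩))) := by
    intro i0 hcut
    exact cyc hr hG hTAcn c1 c2 dA1 dA2 d12 tA1 tA2 a12 hU i0 hcut
  have hfull : ∀ i, row j i ∉ S := by
    intro i hi
    have h1 := hcyc i
    push Not at h1
    rcases h1.1 with (h | h) | h
    · exact hdS0 _ (hTAC _ h) hi
    · exact hdST _ (Or.inl h) hi
    · exact hdST _ (Or.inr h) hi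
  refine ⟨⟨j, ?_, ?_⟩, ?_⟩
  · intro i i' hii
    have h1 := hcyc i
    push Not at h1
    have h2 := h1.2 (by omega)
    have h3 : i' = ⟨i + 1, by omega⟩ := Fin.ext hii
    rw [h3]
    exact h2
  · by_contra hne
    refine crossing hr hG hSc hS0 hSl hSκ (fun w => lev w ≤ 2 * (j : ℕ)) ?_ ?_ ?_
    · simp [lev]
    · simp only [lev, Fin.val_last]
      omega
    · intro u hu w hw hWu hWw huw hlu
      rcases Nat.lt_or_ge (lev u) (2 * j) with h | h
      · exact adj_lev (hG huw) hWu hWw h
      · obtain ⟨hk, hz⟩ := eq_z_of_lev (k := j) hWu (by omega)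
        rw [hz] at huw
        cases w with
        | c v => simp [IsW] at hWw
        | m u v i => simp [IsW] at hWw
        | row j' i' =>
          rcases z_adj_row (hG huw) with h1 | h1
          · have h2 : j = j' := Fin.ext h1.1
            rw [← h2] at hw
            exact absurd hw (hfull _)
          · simp only [lev]
            have := h1.1
            simp only at this
            omega
        | z k' =>
          rcases z_adj_z (hG huw) with h1 | h1
          · exfalso
            apply hne
            have h2 : k' = j.succ := Fin.ext (by simpa using h1)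
            rw [h2] at huw
            exact huw
          · simp only [lev]
            simp only at h1
            omega
  · intro j
    by_contra hcon
    push Not at hcon
    obtain ⟨hne, hno⟩ := hcon
    refine crossing hr hG hSc hS0 hSl hSκ
      (fun w => lev w ≤ 2 * (j : ℕ) ∨ ∃ i : Fin (2 * r), w = row j i ∧ (i : ℕ) % 2 = 1) ?_ ?_ ?_
    · left
      simp [lev]
    · rintro (h | ⟨i, h, _⟩)
      · simp only [lev, Fin.val_last] at h
        omega
      · exact absurd h (by simp)
    · intro u hu w hw hWu hWw huw hlu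
      rcases hlu with hlu | ⟨i, rfl, hi⟩
      · rcases Nat.lt_or_ge (lev u) (2 * j) with h | h
        · exact Or.inl (adj_lev (hG huw) hWu hWw h)
        · obtain ⟨hk, hz⟩ := eq_z_of_lev (k := j) hWu (by omega)
          rw [hz] at huw
          cases w with
          | c v => simp [IsW] at hWw
          | m u v i => simp [IsW] at hWw
          | row j' i' =>
            rcases z_adj_row (hG huw) with h1 | h1
            · right
              have h2 : j = j' := Fin.ext h1.1
              exact ⟨i', by rw [h2], h1.2⟩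
            · left
              simp only [lev]
              have := h1.1
              simp only at this
              omega
          | z k' =>
            rcases z_adj_z (hG huw) with h1 | h1
            · exfalso
              apply hne
              have h2 : k' = j.succ := Fin.ext (by simpa using h1)
              rw [h2] at huw
              exact huw
            · left
              simp only [lev]
              simp only at h1
              omega
      · cases w with
        | c v => simp [IsW] at hWw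
        | m u v i => simp [IsW] at hWw
        | row j' i' =>
          exfalso
          obtain ⟨h1, h2⟩ := row_adj_row (hG huw)
          subst h1
          rcases h2 with h2 | h2
          · exact hno i i' h2 huw
          · exact hno i' i h2 huw.symm
        | z k =>
          rcases z_adj_row (hG huw).symm with h1 | h1
          · left
            simp only [lev]
            omega
          · omega

/-- the key property of subgraphs of the host with a minor `H` -/
theorem star (hr : 1 ≤ r) (hG : G ≤ host r) (hm : IsMinor H G) :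
    (∃ j : Fin r, (∀ i i' : Fin (2 * r), (i' : ℕ) = i + 1 → G.Adj (row j i) (row j i')) ∧
      G.Adj (z j.castSucc) (z j.succ)) ∧
    ∀ j : Fin r, G.Adj (z j.castSucc) (z j.succ) ∨
      ∃ i i' : Fin (2 * r), (i' : ℕ) = i + 1 ∧ G.Adj (row j i) (row j i') := by
  obtain ⟨B, hB, hd, ha⟩ := hm
  have hF : Fam G (fun v => B (inc v)) :=
    ⟨fun v => hB _, fun u v huv => hd _ _ (inc_ne huv), fun u v huv => ha _ _ (H_inc huv)⟩
  have hi : ∀ v : Fin 21, inc v ≠ 21 ∧ inc v ≠ 22 := by decide
  exact star_aux hr hG hF (t1 := B 21) (t2 := B 22) (hB _) (hB _) (fun v => hd _ _ (hi v).1)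
    (fun v => hd _ _ (hi v).2) (hd _ _ (by decide)) (ha _ _ (by decide)) (ha _ _ (by decide))
    (ha _ _ (by decide))

/-- no two edge-disjoint subgraphs of the host have a minor `H` -/
theorem no_two (hr : 1 ≤ r) {G1 G2 : SimpleGraph (HV r)} (h1 : G1 ≤ host r) (h2 : G2 ≤ host r)
    (m1 : IsMinor H G1) (m2 : IsMinor H G2) (hd : ∀ u v, G1.Adj u v → ¬ G2.Adj u v) : False := by
  obtain ⟨⟨j, hj1, hj2⟩, -⟩ := star hr h1 m1
  obtain ⟨-, h⟩ := star hr h2 m2
  rcases h j with h | ⟨i, i', hii, h⟩
  · exact hd _ _ hj2 h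
  · exact hd _ _ (hj1 i i' hii) h

end Pool.Agent.Y395.EP
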