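import Mathlib
import Pool.Agent.Y395.EP.Defs
import Pool.Agent.Y395.EP.Tools
import Pool.Agent.Y395.EP.JGraph
import Pool.Agent.Y395.EP.Exist

set_option autoImplicit false

namespace Pool.Agent.Y395.EP

open CWVertex

/-- the vertex of `H` a vertex of the condensed wall of size 16 is contracted to (99: none) -/
def own : CWVertex 16 → ℕ
  | .a => 0
  | .b => 1
  | .z k => if (k : ℕ) = 15 then 21 else if (k : ℕ) ≤ 13 then 3 * ((k : ℕ) / 2) + 2 else 99
  | .u j i =>
    if (j : ℕ) = 14 then (if (i : ℕ) = 0 then 21 else 99)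
    else if (j : ℕ) = 15 then (if (i : ℕ) ≤ 1 then 22 else 99)
    else if (j : ℕ) % 2 = 0 then (if (i : ℕ) = 0 ∨ (i : ℕ) = 31 then 3 * ((j : ℕ) / 2) + 2 else 99)
    else if (j : ℕ) ≤ 11 then
      (if (i : ℕ) ≤ 1 then 3 * (((j : ℕ) + 1) / 2) else 3 * (((j : ℕ) + 1) / 2) + 1)
    else 99

lemma cw_adj {r : ℕ} {s t : CWVertex r} : (condensedWall r).Adj s t ↔ s ≠ t ∧
    ((match s, t with
      | .u j i, .u j' i' => j = j' ∧ (i' : ℕ) = i + 1
      | .z k, .u j i => ((k : ℕ) = j ∧ (i : ℕ) % 2 = 1) ∨ ((k : ℕ) = j + 1 ∧ (i : ℕ) % 2 = 0)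
      | .z k, .z k' => (k' : ℕ) = k + 1
      | .a, .u _ i => (i : ℕ) = 0
      | .b, .u _ i => (i : ℕ) + 1 = 2 * r
      | _, _ => False) ∨
     (match t, s with
      | .u j i, .u j' i' => j = j' ∧ (i' : ℕ) = i + 1
      | .z k, .u j i => ((k : ℕ) = j ∧ (i : ℕ) % 2 = 1) ∨ ((k : ℕ) = j + 1 ∧ (i : ℕ) % 2 = 0)
      | .z k, .z k' => (k' : ℕ) = k + 1
      | .a, .u _ i => (i : ℕ) = 0
      | .b, .u _ i => (i : ℕ) + 1 = 2 * r
      | _, _ => False)) := SimpleGraph.fromRel_adj _ _ _

lemma cw_uu {j : Fin 16} {i i' : Fin (2 * 16)} (h : (i' : ℕ) = i + 1) :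
    (condensedWall 16).Adj (u j i) (u j i') := by
  rw [cw_adj]
  refine ⟨?_, Or.inl ⟨rfl, h⟩⟩
  intro h'
  rw [CWVertex.u.injEq] at h'
  rw [h'.2] at h
  omega

lemma cw_zz {k k' : Fin (16 + 1)} (h : (k' : ℕ) = k + 1) :
    (condensedWall 16).Adj (z k) (z k') := by
  rw [cw_adj]
  refine ⟨?_, Or.inl h⟩
  intro h'
  rw [CWVertex.z.injEq] at h'
  rw [h'] at h
  omega

lemma cw_zu {k : Fin (16 + 1)} {j : Fin 16} {i : Fin (2 * 16)}
    (h : ((k : ℕ) = j ∧ (i : ℕ) % 2 = 1) ∨ ((k : ℕ) = j + 1 ∧ (i : ℕ) % 2 = 0)) :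
    (condensedWall 16).Adj (z k) (u j i) := by
  rw [cw_adj]
  exact ⟨by simp, Or.inl h⟩

lemma cw_au {j : Fin 16} {i : Fin (2 * 16)} (h : (i : ℕ) = 0) :
    (condensedWall 16).Adj a (u j i) := by
  rw [cw_adj]
  exact ⟨by simp, Or.inl h⟩

lemma cw_bu {j : Fin 16} {i : Fin (2 * 16)} (h : (i : ℕ) + 1 = 2 * 16) :
    (condensedWall 16).Adj b (u j i) := by
  rw [cw_adj]
  exact ⟨by simp, Or.inl h⟩

/-- branch sets -/
def BW (n : ℕ) : Set (CWVertex 16) := {w | own w = n}

lemma BW_cn (v : Fin 23) : Cn (condensedWall 16) (BW v) := by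
  have hv := v.2
  -- pairs
  have two : ∀ {s t : CWVertex 16} {n : ℕ}, own s = n → own t = n → (condensedWall 16).Adj s t →
      ∃ K ⊆ BW n, Cn (condensedWall 16) K ∧ s ∈ K ∧ t ∈ K := by
    intro s t n hs ht hst
    refine ⟨{s} ∪ {t}, ?_, (cn_singleton _).union_adj (cn_singleton _) ⟨_, rfl, _, rfl, hst⟩,
      Or.inl rfl, Or.inr rfl⟩
    rintro x (rfl | rfl)
    · exact hs
    · exact ht
  have three : ∀ {s t x : CWVertex 16} {n : ℕ}, own s = n → own t = n → own x = n →
      (condensedWall 16).Adj s t → (condensedWall 16).Adj t x →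
      ∃ K ⊆ BW n, Cn (condensedWall 16) K ∧ s ∈ K ∧ x ∈ K := by
    intro s t x n hs ht hx hst htx
    refine ⟨({s} ∪ {t}) ∪ {x}, ?_, ((cn_singleton _).union_adj (cn_singleton _)
      ⟨_, rfl, _, rfl, hst⟩).union_adj (cn_singleton _) ⟨_, Or.inr rfl, _, rfl, htx⟩,
      Or.inl (Or.inl rfl), Or.inr rfl⟩
    rintro y ((rfl | rfl) | rfl)
    · exact hs
    · exact ht
    · exact hx
  by_cases h0 : (v : ℕ) = 0
  · have : BW v = {a} := by
      ext w
      simp only [BW, Set.mem_ofPred_eq, Set.mem_singleton_iff, h0]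
      cases w with
      | u j i =>
        refine iff_of_false ?_ (by simp)
        intro h
        simp only [own] at h
        split_ifs at h <;> omega
      | z k =>
        refine iff_of_false ?_ (by simp)
        intro h
        simp only [own] at h
        split_ifs at h <;> omega
      | a => simp [own]
      | b => simp [own]
    rw [this]
    exact cn_singleton _
  by_cases h1 : (v : ℕ) = 1
  · have : BW v = {b} := by
      ext w
      simp only [BW, Set.mem_ofPred_eq, Set.mem_singleton_iff, h1]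
      cases w with
      | u j i =>
        refine iff_of_false ?_ (by simp)
        intro h
        simp only [own] at h
        split_ifs at h <;> omega
      | z k =>
        refine iff_of_false ?_ (by simp)
        intro h
        simp only [own] at h
        split_ifs at h <;> omega
      | a => simp [own]
      | b => simp [own]
    rw [this]
    exact cn_singleton _
  by_cases h21 : (v : ℕ) = 21
  · refine cn_of_root (r := z ⟨15, by omega⟩) (by simp [BW, own, h21]) ?_
    intro w hw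
    have hw' : own w = 21 := by rw [← h21]; exact hw
    rw [h21]
    cases w with
    | a => simp [own] at hw'
    | b => simp [own] at hw'
    | z k =>
      have hk : (k : ℕ) = 15 := by
        simp only [own] at hw'
        split_ifs at hw' <;> omega
      have : k = ⟨15, by omega⟩ := Fin.ext hk
      rw [this]
      exact ⟨{z ⟨15, by omega⟩}, by rintro x rfl; simp [BW, own], cn_singleton _, rfl, rfl⟩
    | u j i =>
      have hk : (j : ℕ) = 14 ∧ (i : ℕ) = 0 := by
        simp only [own] at hw'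
        split_ifs at hw' <;> omega
      refine two (by simp [own]) hw' (cw_zu (Or.inr ⟨?_, ?_⟩))
      · simp only; omega
      · omega
  by_cases h22 : (v : ℕ) = 22
  · refine cn_of_root (r := u ⟨15, by omega⟩ ⟨0, by omega⟩) (by simp [BW, own, h22]) ?_
    intro w hw
    have hw' : own w = 22 := by rw [← h22]; exact hw
    rw [h22]
    cases w with
    | a => simp [own] at hw'
    | b => simp [own] at hw'
    | z k =>
      exfalso
      simp only [own] at hw'
      split_ifs at hw' <;> omega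
    | u j i =>
      have hk : (j : ℕ) = 15 ∧ (i : ℕ) ≤ 1 := by
        simp only [own] at hw'
        split_ifs at hw' <;> omega
      have hj : j = ⟨15, by omega⟩ := Fin.ext hk.1
      by_cases hi0 : (i : ℕ) = 0
      · have hi : i = ⟨0, by omega⟩ := Fin.ext hi0
        rw [hj, hi]
        exact ⟨{u ⟨15, by omega⟩ ⟨0, by omega⟩}, by rintro x rfl; simp [BW, own],
          cn_singleton _, rfl, rfl⟩
      · have hi : (i : ℕ) = 1 := by omega
        rw [hj]
        exact two (by simp [own]) (by rw [hj] at hw'; exact hw') (cw_uu (by simp only; omega))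
  have hv20 : (v : ℕ) ≤ 20 := by omega
  obtain ⟨q, hq⟩ : ∃ q, (v : ℕ) / 3 = q := ⟨_, rfl⟩
  by_cases hm2 : (v : ℕ) % 3 = 2
  · -- `z`-type
    have hvq : (v : ℕ) = 3 * q + 2 := by omega
    rw [hvq]
    have hz1 : own (z ⟨2 * q, by omega⟩) = 3 * q + 2 := by
      simp only [own]
      split_ifs <;> omega
    have hz2 : own (z ⟨2 * q + 1, by omega⟩) = 3 * q + 2 := by
      simp only [own]
      split_ifs <;> omega
    refine cn_of_root (r := z ⟨2 * q, by omega⟩) hz1 ?_
    intro w hw
    have hw' : own w = 3 * q + 2 := hw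
    cases w with
    | a => simp [own] at hw'
    | b => simp only [own] at hw'; omega
    | z k =>
      have hk : (k : ℕ) = 2 * q ∨ (k : ℕ) = 2 * q + 1 := by
        simp only [own] at hw'
        split_ifs at hw' <;> omega
      rcases hk with hk | hk
      · have : k = ⟨2 * q, by omega⟩ := Fin.ext hk
        rw [this]
        exact ⟨{z ⟨2 * q, by omega⟩}, by rintro x rfl; exact hz1, cn_singleton _, rfl, rfl⟩
      · exact two hz1 hw' (cw_zz hk)
    | u j i =>
      have hk : (j : ℕ) = 2 * q ∧ ((i : ℕ) = 0 ∨ (i : ℕ) = 31) := by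
        simp only [own] at hw'
        split_ifs at hw' <;> omega
      rcases hk.2 with hi | hi
      · refine three hz1 hz2 hw' (cw_zz rfl) (cw_zu (Or.inr ⟨?_, ?_⟩))
        · simp only; omega
        · omega
      · refine two hz1 hw' (cw_zu (Or.inl ⟨?_, ?_⟩))
        · simp only; omega
        · omega
  by_cases hm0 : (v : ℕ) % 3 = 0
  · have hvq : (v : ℕ) = 3 * q := by omega
    rw [hvq]
    have hq1 : 1 ≤ q := by omega
    have hb : 2 * q - 1 < 16 := by omega
    have hr0 : own (u ⟨2 * q - 1, hb⟩ ⟨0, by omega⟩) = 3 * q := by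
      simp only [own]
      split_ifs <;> omega
    refine cn_of_root (r := u ⟨2 * q - 1, hb⟩ ⟨0, by omega⟩) hr0 ?_
    intro w hw
    have hw' : own w = 3 * q := hw
    cases w with
    | a => simp only [own] at hw'; omega
    | b => simp only [own] at hw'; omega
    | z k =>
      exfalso
      simp only [own] at hw'
      split_ifs at hw' <;> omega
    | u j i =>
      have hk : (j : ℕ) = 2 * q - 1 ∧ (i : ℕ) ≤ 1 := by
        simp only [own] at hw'
        split_ifs at hw' <;> omega
      have hj : j = ⟨2 * q - 1, hb⟩ := Fin.ext hk.1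
      by_cases hi0 : (i : ℕ) = 0
      · have hi : i = ⟨0, by omega⟩ := Fin.ext hi0
        have he : u j i = u ⟨2 * q - 1, hb⟩ ⟨0, by omega⟩ := by rw [hj, hi]
        rw [he]
        exact ⟨{u ⟨2 * q - 1, hb⟩ ⟨0, by omega⟩}, by rintro x rfl; exact hr0,
          cn_singleton _, rfl, rfl⟩
      · have hi : (i : ℕ) = 1 := by omega
        rw [hj]
        exact two hr0 (by rw [hj] at hw'; exact hw') (cw_uu (by simp only; omega))
  · have hvq : (v : ℕ) = 3 * q + 1 := by omega
    rw [hvq]
    have hq1 : 1 ≤ q := by omega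
    have hr0 : ∀ i : Fin (2 * 16), 2 ≤ (i : ℕ) → own (u ⟨2 * q - 1, by omega⟩ i) = 3 * q + 1 := by
      intro i hi
      simp only [own]
      split_ifs <;> omega
    -- intervals
    have hint : ∀ k, 2 ≤ k → k < 32 → Cn (condensedWall 16)
        {w | ∃ i : Fin (2 * 16), 2 ≤ (i : ℕ) ∧ (i : ℕ) ≤ k ∧ w = u ⟨2 * q - 1, by omega⟩ i} := by
      intro k hk
      induction k, hk using Nat.le_induction with
      | base =>
        intro _
        have : {w | ∃ i : Fin (2 * 16), 2 ≤ (i : ℕ) ∧ (i : ℕ) ≤ 2 ∧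
            w = u ⟨2 * q - 1, by omega⟩ i} = {u ⟨2 * q - 1, by omega⟩ ⟨2, by omega⟩} := by
          ext w
          constructor
          · rintro ⟨i, hi, hi', hw⟩
            have : i = ⟨2, by omega⟩ := Fin.ext (by simp only; omega)
            rw [this] at hw
            exact hw
          · intro hw
            exact ⟨⟨2, by omega⟩, le_refl _, le_refl _, hw⟩
        rw [this]
        exact cn_singleton _
      | succ k hk ih =>
        intro hk32
        have h1 := ih (by omega)
        have : {w | ∃ i : Fin (2 * 16), 2 ≤ (i : ℕ) ∧ (i : ℕ) ≤ k + 1 ∧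
            w = u ⟨2 * q - 1, by omega⟩ i} = {w | ∃ i : Fin (2 * 16), 2 ≤ (i : ℕ) ∧ (i : ℕ) ≤ k ∧
            w = u ⟨2 * q - 1, by omega⟩ i} ∪ {u ⟨2 * q - 1, by omega⟩ ⟨k + 1, by omega⟩} := by
          ext w
          constructor
          · rintro ⟨i, hi, hi', hw⟩
            by_cases h2 : (i : ℕ) ≤ k
            · exact Or.inl ⟨i, hi, h2, hw⟩
            · have : i = ⟨k + 1, by omega⟩ := Fin.ext (by simp only; omega)
              rw [this] at hw
              exact Or.inr hw
          · rintro (⟨i, hi, hi', hw⟩ | hw)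
            · exact ⟨i, hi, by omega, hw⟩
            · exact ⟨⟨k + 1, by omega⟩, by simp only; omega, le_refl _, hw⟩
        rw [this]
        refine h1.union_adj (cn_singleton _) ?_
        exact ⟨u ⟨2 * q - 1, by omega⟩ ⟨k, by omega⟩, ⟨⟨k, by omega⟩, hk, le_refl _, rfl⟩, _, rfl,
          cw_uu rfl⟩
    have : BW (3 * q + 1) = {w | ∃ i : Fin (2 * 16), 2 ≤ (i : ℕ) ∧ (i : ℕ) ≤ 31 ∧
        w = u ⟨2 * q - 1, by omega⟩ i} := by
      ext w
      constructor
      · intro hw
        have hw' : own w = 3 * q + 1 := hw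
        cases w with
        | a => simp only [own] at hw'; omega
        | b => simp only [own] at hw'; omega
        | z k =>
          exfalso
          simp only [own] at hw'
          split_ifs at hw' <;> omega
        | u j i =>
          have hk : (j : ℕ) = 2 * q - 1 ∧ 2 ≤ (i : ℕ) := by
            simp only [own] at hw'
            split_ifs at hw' <;> omega
          have hj : j = ⟨2 * q - 1, by omega⟩ := Fin.ext hk.1
          exact ⟨i, hk.2, by omega, by rw [hj]⟩
      · rintro ⟨i, hi, _, rfl⟩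
        exact hr0 i hi
    rw [this]
    exact hint 31 (by omega) (by omega)

lemma BW_tch (v w : Fin 23) (h : hrel v w) : Tch (condensedWall 16) (BW v) (BW w) := by
  rcases h with ⟨h20, h | h | ⟨h2, h⟩⟩ | h | h
  · -- `a`
    obtain ⟨hv, hw, hm⟩ := h
    obtain ⟨q, hq⟩ : ∃ q, (w : ℕ) / 3 = q := ⟨_, rfl⟩
    by_cases hm2 : (w : ℕ) % 3 = 2
    · have hwq : (w : ℕ) = 3 * q + 2 := by omega
      refine ⟨a, ?_, u ⟨2 * q, by omega⟩ ⟨0, by omega⟩, ?_, cw_au rfl⟩
      · simp only [BW, Set.mem_ofPred_eq, own]; omega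
      · simp only [BW, Set.mem_ofPred_eq, own, hwq]
        rw [if_neg (by omega), if_neg (by omega), if_pos (by omega), if_pos (by simp)]
        omega
    · refine ⟨a, ?_, u ⟨2 * q - 1, by omega⟩ ⟨0, by omega⟩, ?_, cw_au rfl⟩
      · simp only [BW, Set.mem_ofPred_eq, own]; omega
      · simp only [BW, Set.mem_ofPred_eq, own]; split_ifs <;> omega
  · obtain ⟨hv, hw, hm⟩ := h
    obtain ⟨q, hq⟩ : ∃ q, (w : ℕ) / 3 = q := ⟨_, rfl⟩
    by_cases hm2 : (w : ℕ) % 3 = 2
    · have hwq : (w : ℕ) = 3 * q + 2 := by omega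
      refine ⟨b, ?_, u ⟨2 * q, by omega⟩ ⟨31, by omega⟩, ?_, cw_bu rfl⟩
      · simp only [BW, Set.mem_ofPred_eq, own]; omega
      · simp only [BW, Set.mem_ofPred_eq, own, hwq]
        rw [if_neg (by omega), if_neg (by omega), if_pos (by omega), if_pos (by simp)]
        omega
    · refine ⟨b, ?_, u ⟨2 * q - 1, by omega⟩ ⟨31, by omega⟩, ?_, cw_bu rfl⟩
      · simp only [BW, Set.mem_ofPred_eq, own]; omega
      · simp only [BW, Set.mem_ofPred_eq, own]; split_ifs <;> omega
  · obtain ⟨q, hq⟩ : ∃ q, (v : ℕ) / 3 = q := ⟨_, rfl⟩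
    by_cases hm2 : (v : ℕ) % 3 = 2
    · rcases h with h | ⟨h, hm⟩
      · refine ⟨z ⟨2 * q + 1, by omega⟩, ?_, u ⟨2 * q + 1, by omega⟩ ⟨1, by omega⟩, ?_,
          cw_zu (Or.inl ⟨rfl, by simp⟩)⟩
        · simp only [BW, Set.mem_ofPred_eq, own]; split_ifs <;> omega
        · simp only [BW, Set.mem_ofPred_eq, own]; split_ifs <;> omega
      · refine ⟨z ⟨2 * q + 1, by omega⟩, ?_, u ⟨2 * q + 1, by omega⟩ ⟨3, by omega⟩, ?_,
          cw_zu (Or.inl ⟨rfl, by simp⟩)⟩
        · simp only [BW, Set.mem_ofPred_eq, own]; split_ifs <;> omega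
        · simp only [BW, Set.mem_ofPred_eq, own]; split_ifs <;> omega
    · by_cases hm0 : (v : ℕ) % 3 = 0
      · rcases h with h | ⟨h, hm⟩
        · refine ⟨u ⟨2 * q - 1, by omega⟩ ⟨1, by omega⟩, ?_, u ⟨2 * q - 1, by omega⟩ ⟨2, by omega⟩,
            ?_, cw_uu rfl⟩
          · simp only [BW, Set.mem_ofPred_eq, own]; split_ifs <;> omega
          · simp only [BW, Set.mem_ofPred_eq, own]; split_ifs <;> omega
        · refine ⟨u ⟨2 * q - 1, by omega⟩ ⟨0, by omega⟩, ?_, z ⟨2 * q, by omega⟩, ?_,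
            (cw_zu (Or.inr ⟨?_, by simp⟩)).symm⟩
          · simp only [BW, Set.mem_ofPred_eq, own]; split_ifs <;> omega
          · simp only [BW, Set.mem_ofPred_eq, own]; split_ifs <;> omega
          · simp only; omega
      · have h' : (w : ℕ) = v + 1 := by
          rcases h with h | ⟨h, hm⟩
          · exact h
          · omega
        refine ⟨u ⟨2 * q - 1, by omega⟩ ⟨2, by omega⟩, ?_, z ⟨2 * q, by omega⟩, ?_,
            (cw_zu (Or.inr ⟨?_, by simp⟩)).symm⟩
        · simp only [BW, Set.mem_ofPred_eq, own]; split_ifs <;> omega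
        · simp only [BW, Set.mem_ofPred_eq, own]; split_ifs <;> omega
        · simp only; omega
  · by_cases hw : (w : ℕ) = 21
    · refine ⟨a, ?_, u ⟨14, by omega⟩ ⟨0, by omega⟩, ?_, cw_au rfl⟩
      · simp only [BW, Set.mem_ofPred_eq, own]; omega
      · simp only [BW, Set.mem_ofPred_eq, own]; split_ifs <;> omega
    · have := w.2
      refine ⟨a, ?_, u ⟨15, by omega⟩ ⟨0, by omega⟩, ?_, cw_au rfl⟩
      · simp only [BW, Set.mem_ofPred_eq, own]; omega
      · simp only [BW, Set.mem_ofPred_eq, own]; split_ifs <;> omega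
  · refine ⟨z ⟨15, by omega⟩, ?_, u ⟨15, by omega⟩ ⟨1, by omega⟩, ?_,
      cw_zu (Or.inl ⟨rfl, rfl⟩)⟩
    · simp only [BW, Set.mem_ofPred_eq, own]; split_ifs <;> omega
    · simp only [BW, Set.mem_ofPred_eq, own]; split_ifs <;> omega

theorem H_minor_wall : IsMinor H (condensedWall 16) := by
  refine ⟨fun v => BW v, BW_cn, ?_, ?_⟩
  · intro v w hvw
    rw [Set.disjoint_left]
    intro x hx hx'
    have h1 : own x = v := hx
    have h2 : own x = w := hx'
    exact hvw (Fin.ext (h1.symm.trans h2))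
  · intro v w h
    rw [H_adj] at h
    rcases h.2 with h1 | h1
    · exact BW_tch v w h1
    · exact (BW_tch w v h1).symm

end Pool.Agent.Y395.EP
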