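import Mathlib
import Pool.Agent.Y395.EP.Defs
import Pool.Agent.Y395.EP.Star
import Pool.Agent.Y395.EP.Exist
import Pool.Agent.Y395.EP.Plane
import Pool.Agent.Y395.EP.Wall

set_option autoImplicit false

namespace Pool.Agent.Y395.EP

open HV

lemma finite_HV (r : ℕ) : Finite (HV r) := by
  let f : HV r → Fin 21 ⊕ (Fin 21 × Fin 21 × Fin r) ⊕ (Fin r × Fin (2 * r)) ⊕ Fin (r + 1) :=
    fun w => match w with
      | .c v => Sum.inl v
      | .m u v i => Sum.inr (Sum.inl (u, v, i))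
      | .row j i => Sum.inr (Sum.inr (Sum.inl (j, i)))
      | .z k => Sum.inr (Sum.inr (Sum.inr k))
  refine Finite.of_injective f ?_
  intro a b hab
  cases a <;> cases b <;> simp_all [f]

lemma H_connected : H.Connected := by
  rw [SimpleGraph.connected_iff_exists_forall_reachable]
  refine ⟨0, ?_⟩
  have key : ∀ v : Fin 23, v = 0 ∨ H.Adj 0 v ∨ ∃ w, H.Adj 0 w ∧ H.Adj w v := by decide +kernel
  intro v
  rcases key v with rfl | h | ⟨w, h1, h2⟩
  · exact SimpleGraph.Reachable.refl _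
  · exact h.reachable
  · exact h1.reachable.trans h2.reachable

theorem not_EdgeErdosPosa_H : ¬ EdgeErdosPosa H := by
  rintro ⟨f, hf⟩
  obtain ⟨r, hr2, hrf⟩ : ∃ r : ℕ, 2 ≤ r ∧ f 2 < r := by
    obtain ⟨n, hn⟩ := exists_nat_gt (f 2)
    refine ⟨max 2 n, le_max_left _ _, lt_of_lt_of_le hn ?_⟩
    exact_mod_cast le_max_right 2 n
  have hfin : Finite (HV r) := finite_HV r
  let ends : (host r).edgeSet → Sym2 (HV r) := fun e => (e : Sym2 (HV r))
  have hle : ∀ F : Set (host r).edgeSet, under ends F ≤ host r := by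
    intro F u v huv
    rw [under, SimpleGraph.fromEdgeSet_adj] at huv
    obtain ⟨⟨e, _, he⟩, _⟩ := huv
    have h1 : (e : Sym2 (HV r)) = s(u, v) := he
    rw [← SimpleGraph.mem_edgeSet, ← h1]
    exact e.2
  rcases hf (HV r) (host r).edgeSet ends
    (fun e => SimpleGraph.not_isDiag_of_mem_edgeSet _ e.2) 2 with ⟨F, hF, hd⟩ | ⟨X, hX, hF⟩
  · refine no_two (r := r) (by omega) (hle (F 0)) (hle (F 1)) (hF 0) (hF 1) ?_
    intro u v h1 h2
    rw [under, SimpleGraph.fromEdgeSet_adj] at h1 h2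
    obtain ⟨⟨e, he, he'⟩, _⟩ := h1
    obtain ⟨⟨e2, he2, he2'⟩, _⟩ := h2
    have h3 : e = e2 := Subtype.ext (he'.trans he2'.symm)
    rw [← h3] at he2
    exact Set.disjoint_left.1 (hd 0 1 (by decide)) he he2
  · have hcard : (ends '' X).ncard < r := by
      have h1 : (ends '' X).ncard ≤ X.ncard := Set.ncard_image_le (Set.toFinite X)
      have h2 : (X.ncard : ℝ) < r := lt_of_le_of_lt hX hrf
      have h3 : X.ncard < r := by exact_mod_cast h2
      omega
    have hmin : IsMinor H (under ends Xᶜ) := by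
      refine survive (r := r) hr2 (Set.toFinite (ends '' X)) hcard ?_
      intro u v huv hnot
      rw [under, SimpleGraph.fromEdgeSet_adj]
      refine ⟨⟨⟨s(u, v), huv⟩, ?_, rfl⟩, huv.ne⟩
      intro hmem
      exact hnot ⟨⟨s(u, v), huv⟩, hmem, rfl⟩
    obtain ⟨e, he1, he2⟩ := hF Xᶜ hmin
    exact he2 he1

end Pool.Agent.Y395.EP
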